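import Mathlib

set_option autoImplicit false

namespace Pool.Agent.SurfGrowth

open scoped commutatorElement

/-- The relator `[a_1,b_1] ⋯ [a_g,b_g]`; the generator `a_i` is `(i, false)`, `b_i` is `(i, true)`. -/
def surfaceRel (g : ℕ) : FreeGroup (Fin g × Bool) :=
  (List.ofFn (fun i : Fin g => ⁅FreeGroup.of (i, false), FreeGroup.of (i, true)⁆)).prod

/-- The fundamental group of the closed orientable surface of genus `g`, by its presentation
`⟨a_1, b_1, …, a_g, b_g | [a_1,b_1] ⋯ [a_g,b_g]⟩`. -/
abbrev SurfaceGroup (g : ℕ) : Type :=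
  PresentedGroup ({surfaceRel g} : Set (FreeGroup (Fin g × Bool)))

/-- The elements of `G` that equal a product of at most `n` factors taken from `S ∪ S⁻¹`. -/
def wordBall {G : Type*} [Group G] (S : Finset G) (n : ℕ) : Set G :=
  {w | ∃ l : List G, l.length ≤ n ∧ (∀ s ∈ l, s ∈ S ∨ s⁻¹ ∈ S) ∧ l.prod = w}

/-- `β_S(n)`, the number of elements of `wordBall S n`. -/
noncomputable def beta {G : Type*} [Group G] (S : Finset G) (n : ℕ) : ℕ := (wordBall S n).ncard

/-- `ω(G,S) = limsup β_S(n)^(1/n)`, as an extended nonnegative real. -/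
noncomputable def growthRate {G : Type*} [Group G] (S : Finset G) : ENNReal :=
  Filter.limsup (fun n : ℕ => (beta S n : ENNReal) ^ (1 / (n : ℝ))) Filter.atTop

/-- `ω(G)`, the infimum of `ω(G,S)` over all finite generating sets `S`. -/
noncomputable def minGrowth (G : Type*) [Group G] : ENNReal :=
  ⨅ (S : Finset G) (_ : Subgroup.closure (S : Set G) = ⊤), growthRate S

end Pool.Agent.SurfGrowth
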