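import Mathlib

set_option autoImplicit false

namespace Pool.Agent.SurfGrowth

open Finset

/-- An injective partial map on a finite type extends to a permutation. -/
theorem exists_perm_extend {α : Type*} [Finite α] (s : Set α) (f : α → α) (hf : Set.InjOn f s) :
    ∃ g : Equiv.Perm α, ∀ i ∈ s, g i = f i := by
  classical
  have := Fintype.ofFinite α
  obtain ⟨g, hg⟩ := Set.MapsTo.exists_equiv_extend_of_card_eq (α := α) (β := α)
    (t := (univ : Finset α)) (by simp) (s := s) (f := f) (fun i _ => by simp) hf
  refine ⟨g.trans (Equiv.subtypeUnivEquiv (by simp)), ?_⟩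
  intro i hi
  simpa using hg i hi

section

variable {α : Type*} (L : List (α × Bool))

/-- partial action of a generator on positions `0..L.length` -/
noncomputable def posMap (i : α) (p : Fin (L.length + 1)) : Fin (L.length + 1) :=
  open Classical in
  if h : ∃ j : ℕ, p.val = j + 1 ∧ L[j]? = some (i, true) then
    ⟨p.val - 1, by omega⟩
  else if h2 : p.val < L.length then ⟨p.val + 1, by omega⟩ else p

/-- domain of definition -/
def posDom (i : α) : Set (Fin (L.length + 1)) :=
  {p | (∃ j : ℕ, p.val = j + 1 ∧ L[j]? = some (i, true)) ∨ L[p.val]? = some (i, false)}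

variable {L}

theorem posMap_true {i : α} {p : Fin (L.length + 1)} {j : ℕ} (h1 : p.val = j + 1)
    (h2 : L[j]? = some (i, true)) : (posMap L i p).val = j := by
  unfold posMap
  rw [dif_pos ⟨j, h1, h2⟩]
  simp [h1]

theorem posMap_false (hL : FreeGroup.IsReduced L) {i : α} {p : Fin (L.length + 1)}
    (h2 : L[p.val]? = some (i, false)) : (posMap L i p).val = p.val + 1 := by
  have hlt : p.val < L.length := by
    by_contra hcon
    push Not at hcon
    rw [List.getElem?_eq_none hcon] at h2
    exact absurd h2 (by simp)
  unfold posMap
  rw [dif_neg, dif_pos hlt]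
  rintro ⟨j, h3, h4⟩
  unfold FreeGroup.IsReduced at hL
  rw [List.isChain_iff_getElem] at hL
  have h5 := hL j (by omega)
  have hj : j < L.length := by omega
  rw [List.getElem?_eq_getElem hj, Option.some.injEq] at h4
  rw [List.getElem?_eq_getElem hlt, Option.some.injEq] at h2
  have h6 : L[j + 1]'(by omega) = (i, false) := by
    rw [← h2]
    congr 1
    exact h3.symm
  rw [h4, h6] at h5
  simp at h5

theorem posMap_injOn (hL : FreeGroup.IsReduced L) (i : α) : Set.InjOn (posMap L i) (posDom L i) := by
  have key : ∀ (p q : Fin (L.length + 1)) (j : ℕ), p.val = j + 1 → L[j]? = some (i, true) →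
      L[q.val]? = some (i, false) → posMap L i p ≠ posMap L i q := by
    intro p q j h1 h2 h3 heq
    have e1 := posMap_true h1 h2
    have e2 := posMap_false hL h3
    rw [heq, e2] at e1
    -- q + 1 = j
    unfold FreeGroup.IsReduced at hL
    rw [List.isChain_iff_getElem] at hL
    have hj : j < L.length := by
      by_contra hcon
      push Not at hcon
      rw [List.getElem?_eq_none hcon] at h2
      exact absurd h2 (by simp)
    have h5 := hL q.val (by omega)
    have hq : q.val < L.length := by omega
    rw [List.getElem?_eq_getElem hj, Option.some.injEq] at h2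
    rw [List.getElem?_eq_getElem hq, Option.some.injEq] at h3
    have h6 : L[q.val + 1]'(by omega) = (i, true) := by
      rw [← h2]
      congr 1
    rw [h3, h6] at h5
    simp at h5
  intro p hp q hq heq
  rcases hp with ⟨j, h1, h2⟩ | h1 <;> rcases hq with ⟨j', h1', h2'⟩ | h1'
  · have e1 := posMap_true h1 h2
    have e2 := posMap_true h1' h2'
    apply Fin.ext
    rw [heq, e2] at e1
    omega
  · exact absurd heq (key p q j h1 h2 h1')
  · exact absurd heq.symm (key q p j' h1' h2' h1)
  · have e1 := posMap_false hL h1
    have e2 := posMap_false hL h1'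
    apply Fin.ext
    rw [heq, e2] at e1
    omega

/-- Free groups are residually finite, concrete form. -/
theorem freeGroup_rf [DecidableEq α] (w : FreeGroup α) (hw : w ≠ 1) :
    ∃ (n : ℕ) (ρ : FreeGroup α →* Equiv.Perm (Fin n)), ρ w ≠ 1 := by
  set L := w.toWord with hLdef
  have hL : FreeGroup.IsReduced L := FreeGroup.isReduced_toWord
  have hLne : L ≠ [] := by
    intro h
    exact hw (FreeGroup.toWord_eq_nil_iff.mp h)
  choose σ hσ using fun i : α => exists_perm_extend (posDom L i) (posMap L i) (posMap_injOn hL i)
  refine ⟨L.length + 1, FreeGroup.lift σ, ?_⟩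
  have key : ∀ k : ℕ, k ≤ L.length →
      ((FreeGroup.lift σ (FreeGroup.mk (L.drop (L.length - k)))) (Fin.last _)).val =
        L.length - k := by
    intro k
    induction k with
    | zero =>
      intro _
      rw [Nat.sub_zero, List.drop_length]
      have : FreeGroup.mk ([] : List (α × Bool)) = 1 := rfl
      rw [this, map_one]
      rfl
    | succ k ih =>
      intro hk
      have hlt : L.length - (k + 1) < L.length := by omega
      rw [List.drop_eq_getElem_cons hlt]
      have e1 : L.length - (k + 1) + 1 = L.length - k := by omega
      rw [e1]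
      have e2 : FreeGroup.mk (L[L.length - (k + 1)] :: L.drop (L.length - k)) =
          FreeGroup.mk [L[L.length - (k + 1)]] * FreeGroup.mk (L.drop (L.length - k)) := by
        rw [FreeGroup.mul_mk]
        rfl
      rw [e2, map_mul, Equiv.Perm.mul_apply]
      have ih' := ih (by omega)
      set p := (FreeGroup.lift σ (FreeGroup.mk (L.drop (L.length - k)))) (Fin.last _) with hp
      rcases hcase : L[L.length - (k + 1)] with ⟨i, b⟩
      have hget : L[L.length - (k + 1)]? = some (i, b) := by
        rw [List.getElem?_eq_getElem hlt, hcase]
      cases b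
      · -- inverse letter
        set q : Fin (L.length + 1) := ⟨L.length - (k + 1), by omega⟩ with hq
        have h3 : σ i q = p := by
          have hdom : q ∈ posDom L i := by
            right
            exact hget
          rw [hσ i _ hdom]
          apply Fin.ext
          rw [posMap_false hL (by exact hget), ih']
          simp only [hq]
          omega
        simp only [FreeGroup.lift_mk, List.map_cons, List.map_nil, List.prod_cons, List.prod_nil,
          mul_one, cond_false]
        rw [← h3, Equiv.Perm.inv_def, Equiv.symm_apply_apply]
      · have hdom : p ∈ posDom L i := by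
          left
          exact ⟨L.length - (k + 1), by omega, hget⟩
        simp only [FreeGroup.lift_mk, List.map_cons, List.map_nil, List.prod_cons, List.prod_nil,
          mul_one, cond_true]
        rw [hσ i _ hdom]
        rw [posMap_true (j := L.length - (k + 1)) (by omega) hget]
  intro hcon
  have h1 := key L.length le_rfl
  have hw' : FreeGroup.mk L = w := FreeGroup.mk_toWord
  rw [Nat.sub_self, List.drop_zero, hw', hcon] at h1
  simp only [Equiv.Perm.coe_one, id_eq, Fin.val_last] at h1
  exact hLne (List.length_eq_zero_iff.mp h1)

end

end Pool.Agent.SurfGrowth
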