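import Mathlib
import Pool.Agent.SurfGrowth.FreeRF

set_option autoImplicit false

namespace Pool.Agent.SurfGrowth

open Finset

/-- Hopf property for free groups of finite rank. -/
theorem free_surj_inj {ι C : Type*} [Finite ι] (e : ι ≃ C)
    (f : FreeGroup ι →* FreeGroup C) (hf : Function.Surjective f) : Function.Injective f := by
  classical
  have := Fintype.ofFinite ι
  have : Fintype C := Fintype.ofEquiv ι e
  rw [injective_iff_map_eq_one]
  intro w hw
  by_contra hne
  obtain ⟨n, ρ, hρ⟩ := freeGroup_rf w hne
  let P := Equiv.Perm (Fin n)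
  let Φ : (C → P) → (ι → P) := fun τ i => FreeGroup.lift τ (f (FreeGroup.of i))
  have hΦ : ∀ τ : C → P, FreeGroup.lift (Φ τ) = (FreeGroup.lift τ).comp f := by
    intro τ
    apply FreeGroup.ext_hom
    intro i
    simp [Φ]
  have hinj : Function.Injective Φ := by
    intro τ τ' h
    have h1 : (FreeGroup.lift τ).comp f = (FreeGroup.lift τ').comp f := by
      rw [← hΦ, ← hΦ, h]
    funext c
    obtain ⟨u, hu⟩ := hf (FreeGroup.of c)
    have h2 := DFunLike.congr_fun h1 u
    simpa [hu] using h2
  have hbij : Function.Bijective Φ := by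
    rw [Fintype.bijective_iff_injective_and_card]
    refine ⟨hinj, ?_⟩
    simp [Fintype.card_congr e]
  obtain ⟨τ, hτ⟩ := hbij.2 (fun i => ρ (FreeGroup.of i))
  have h3 : ρ = (FreeGroup.lift τ).comp f := by
    rw [← hΦ, hτ]
    apply FreeGroup.ext_hom
    intro i
    simp
  apply hρ
  rw [h3, MonoidHom.comp_apply, hw, map_one]

/-- rational abelianization of a free group -/
noncomputable def abQ (α : Type*) : FreeGroup α →* Multiplicative (α →₀ ℚ) :=
  FreeGroup.lift (fun a => Multiplicative.ofAdd (Finsupp.single a 1))

theorem abQ_of {α : Type*} (a : α) :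
    Multiplicative.toAdd (abQ α (FreeGroup.of a)) = Finsupp.single a 1 := by
  simp [abQ]

/-- linear map induced by a homomorphism of free groups -/
noncomputable def indLin {α β : Type*} (f : FreeGroup α →* FreeGroup β) :
    (α →₀ ℚ) →ₗ[ℚ] (β →₀ ℚ) :=
  Finsupp.linearCombination ℚ (fun a => Multiplicative.toAdd (abQ β (f (FreeGroup.of a))))

theorem indLin_abQ {α β : Type*} (f : FreeGroup α →* FreeGroup β) (w : FreeGroup α) :
    indLin f (Multiplicative.toAdd (abQ α w)) = Multiplicative.toAdd (abQ β (f w)) := by
  let F1 : FreeGroup α →* Multiplicative (β →₀ ℚ) :=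
    (AddMonoidHom.toMultiplicative (indLin f).toAddMonoidHom).comp (abQ α)
  have h : F1 = (abQ β).comp f := by
    apply FreeGroup.ext_hom
    intro a
    apply Multiplicative.toAdd.injective
    show indLin f (Multiplicative.toAdd (abQ α (FreeGroup.of a))) = _
    rw [abQ_of]
    simp [indLin]
  exact congrArg Multiplicative.toAdd (DFunLike.congr_fun h w)

/-- Elements of a free group which are linearly independent in the rational abelianization form a
basis of a free subgroup. -/
theorem lift_injective_of_linearIndependent {ι κ : Type*} [Finite ι] (y : ι → FreeGroup κ)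
    (hlin : LinearIndependent ℚ (fun i => Multiplicative.toAdd (abQ κ (y i)))) :
    Function.Injective (FreeGroup.lift y) := by
  classical
  let H := (FreeGroup.lift y).range
  let C := IsFreeGroup.Generators H
  let e : H ≃* FreeGroup C := IsFreeGroup.toFreeGroup H
  let f : FreeGroup ι →* FreeGroup C := e.toMonoidHom.comp (FreeGroup.lift y).rangeRestrict
  let h : FreeGroup C →* FreeGroup κ := H.subtype.comp e.symm.toMonoidHom
  have hf : Function.Surjective f :=
    e.surjective.comp (FreeGroup.lift y).rangeRestrict_surjective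
  have hh : Function.Injective h :=
    (Subtype.val_injective).comp e.symm.injective
  have hcomp : ∀ w, h (f w) = FreeGroup.lift y w := by
    intro w
    show ((e.symm (e ((FreeGroup.lift y).rangeRestrict w)) : H) : FreeGroup κ) = _
    rw [MulEquiv.symm_apply_apply]
    rfl
  have hlinj : Function.Injective (indLin f) := by
    have h1 : Function.Injective (Finsupp.linearCombination ℚ
        (fun i => Multiplicative.toAdd (abQ κ (y i)))) := hlin
    have h2 : (indLin h).comp (indLin f) = Finsupp.linearCombination ℚ
        (fun i => Multiplicative.toAdd (abQ κ (y i))) := by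
      apply Finsupp.lhom_ext'
      intro i
      apply LinearMap.ext_ring
      show indLin h (indLin f (Finsupp.single i 1)) = _
      rw [← abQ_of, indLin_abQ, indLin_abQ, hcomp]
      simp [abQ]
    have h3 : Function.Injective ((indLin h).comp (indLin f)) := by rw [h2]; exact h1
    rw [LinearMap.coe_comp] at h3
    exact Function.Injective.of_comp h3
  have hlsurj : Function.Surjective (indLin f) := by
    rw [← LinearMap.range_eq_top, eq_top_iff,
      ← (Finsupp.basisSingleOne : Module.Basis C ℚ (C →₀ ℚ)).span_eq, Submodule.span_le]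
    rintro _ ⟨c, rfl⟩
    rw [Finsupp.coe_basisSingleOne]
    obtain ⟨u, hu⟩ := hf (FreeGroup.of c)
    refine ⟨Multiplicative.toAdd (abQ ι u), ?_⟩
    rw [indLin_abQ, hu, abQ_of]
  let E : (ι →₀ ℚ) ≃ₗ[ℚ] (C →₀ ℚ) := LinearEquiv.ofBijective (indLin f) ⟨hlinj, hlsurj⟩
  let bC : Module.Basis C ℚ (C →₀ ℚ) := Finsupp.basisSingleOne
  let bι : Module.Basis ι ℚ (C →₀ ℚ) := (Finsupp.basisSingleOne).map E
  have e2 : ι ≃ C := bι.indexEquiv bC
  have hfi := free_surj_inj e2 f hf
  intro w w' hww
  rw [← hcomp, ← hcomp] at hww
  exact hfi (hh hww)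

end Pool.Agent.SurfGrowth
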