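import Mathlib
import Pool.Agent.SurfGrowth.FreeInd
import Pool.Agent.SurfGrowth.Defs

set_option autoImplicit false

namespace Pool.Agent.SurfGrowth

open scoped commutatorElement

namespace SurfaceGroup

variable {g : ℕ}

/-- generators of the surface group -/
def gen (y : Fin g × Bool) : SurfaceGroup g := PresentedGroup.of y

theorem rel_eq_one : (List.ofFn (fun i : Fin g => ⁅gen (i, false), gen (i, true)⁆)).prod = 1 := by
  have h : PresentedGroup.mk ({surfaceRel g} : Set (FreeGroup (Fin g × Bool))) (surfaceRel g) = 1 := by
    apply (QuotientGroup.eq_one_iff _).mpr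
    exact Subgroup.subset_normalClosure rfl
  unfold surfaceRel at h
  rw [map_list_prod, List.map_ofFn] at h
  have h2 : (fun i : Fin g => ⁅gen (i, false), gen (i, true)⁆) =
      (PresentedGroup.mk ({surfaceRel g} : Set (FreeGroup (Fin g × Bool)))) ∘
        (fun i : Fin g => ⁅FreeGroup.of (i, false), FreeGroup.of (i, true)⁆) := by
    funext i
    simp only [Function.comp_apply, map_commutatorElement]
    rfl
  rw [h2]
  exact h

variable {K : Type*} [Group K]

/-- homomorphism out of the surface group -/
def toGroup (f : Fin g × Bool → K)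
    (hf : (List.ofFn (fun i : Fin g => ⁅f (i, false), f (i, true)⁆)).prod = 1) :
    SurfaceGroup g →* K :=
  PresentedGroup.toGroup (f := f) (by
    intro r hr
    rw [Set.mem_singleton_iff] at hr
    subst hr
    unfold surfaceRel
    rw [map_list_prod, List.map_ofFn, ← hf]
    congr 2
    funext i
    simp [map_commutatorElement])

@[simp] theorem toGroup_gen (f : Fin g × Bool → K)
    (hf : (List.ofFn (fun i : Fin g => ⁅f (i, false), f (i, true)⁆)).prod = 1) (y : Fin g × Bool) :
    toGroup f hf (gen y) = f y :=
  PresentedGroup.toGroup.of _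

theorem hom_ext {φ ψ : SurfaceGroup g →* K} (h : ∀ y, φ (gen y) = ψ (gen y)) : φ = ψ :=
  PresentedGroup.ext h

theorem commProd (hK : ∀ a b : K, a * b = b * a) (f : Fin g × Bool → K) :
    (List.ofFn (fun i : Fin g => ⁅f (i, false), f (i, true)⁆)).prod = 1 := by
  have : (fun i : Fin g => ⁅f (i, false), f (i, true)⁆) = fun _ => (1 : K) := by
    funext i
    rw [commutatorElement_eq_one_iff_mul_comm]
    exact hK _ _
  rw [this]
  simp

/-- image of a generator in the rational abelianization -/
noncomputable def abGen (y : Fin g × Bool) : Multiplicative ((Fin g × Bool) →₀ ℚ) :=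
  Multiplicative.ofAdd (Finsupp.single y 1)

theorem abGen_rel : (List.ofFn (fun i : Fin g => ⁅abGen (i, false), abGen (i, true)⁆)).prod = 1 :=
  commProd (fun a b => mul_comm a b) abGen

/-- rational abelianization of the surface group -/
noncomputable def ab : SurfaceGroup g →* Multiplicative ((Fin g × Bool) →₀ ℚ) :=
  toGroup abGen abGen_rel

theorem ab_gen (y : Fin g × Bool) :
    Multiplicative.toAdd (ab (gen y)) = Finsupp.single y 1 := by
  unfold ab
  rw [toGroup_gen]
  rfl

/-- `Good m`: every finite family, rationally independent in the abelianization and killed by the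
functional `m`, is a free basis of a free subgroup -/
def Good (m : Fin g × Bool → ℤ) : Prop :=
  ∀ (ι : Type) [Finite ι] (x : ι → SurfaceGroup g),
    LinearIndependent ℚ (fun i => Multiplicative.toAdd (ab (x i))) →
    (∀ i, ∑ y, (m y : ℚ) * (Multiplicative.toAdd (ab (x i))) y = 0) →
    Function.Injective (FreeGroup.lift x)

theorem Good.transfer {m m' : Fin g × Bool → ℤ} (hm' : Good m')
    (α : SurfaceGroup g →* SurfaceGroup g)
    (L : ((Fin g × Bool) →₀ ℚ) →ₗ[ℚ] ((Fin g × Bool) →₀ ℚ)) (hL : LinearMap.ker L = ⊥)
    (hα : ∀ y, Multiplicative.toAdd (ab (α (gen y))) = L (Finsupp.single y 1))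
    (hm : ∀ y, (m y : ℚ) = ∑ z, (m' z : ℚ) * (L (Finsupp.single y 1)) z) : Good m := by
  intro ι _ x hx hx0
  have hα' : ∀ z, Multiplicative.toAdd (ab (α z)) = L (Multiplicative.toAdd (ab z)) := by
    let F1 : SurfaceGroup g →* Multiplicative ((Fin g × Bool) →₀ ℚ) :=
      (AddMonoidHom.toMultiplicative L.toAddMonoidHom).comp ab
    have h : (ab.comp α : SurfaceGroup g →* _) = F1 := by
      apply hom_ext
      intro y
      apply Multiplicative.toAdd.injective
      show Multiplicative.toAdd (ab (α (gen y))) = L (Multiplicative.toAdd (ab (gen y)))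
      rw [hα, ab_gen]
    intro z
    exact congrArg Multiplicative.toAdd (DFunLike.congr_fun h z)
  have hm2 : ∀ v : (Fin g × Bool) →₀ ℚ, ∑ y, (m y : ℚ) * v y = ∑ z, (m' z : ℚ) * (L v) z := by
    intro v
    induction v using Finsupp.induction_linear with
    | zero => simp
    | add f g hf hg =>
      simp only [map_add, Finsupp.add_apply, mul_add, Finset.sum_add_distrib, hf, hg]
    | single y c =>
      have h1 : Finsupp.single y c = c • Finsupp.single y (1 : ℚ) := by simp
      rw [h1, map_smul]
      simp only [Finsupp.smul_apply, smul_eq_mul]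
      have h2 : ∑ z, (m' z : ℚ) * (c * (L (Finsupp.single y 1)) z) =
          c * ∑ z, (m' z : ℚ) * (L (Finsupp.single y 1)) z := by
        rw [Finset.mul_sum]
        apply Finset.sum_congr rfl
        intro z _
        ring
      rw [h2, ← hm, Finset.sum_eq_single y]
      · simp [mul_comm]
      · intro z _ hz
        simp [Finsupp.single_apply, hz.symm]
      · simp
  have h1 := hm' ι (fun i => α (x i)) (by
    simp_rw [hα']
    exact hx.map' L hL) (by
    intro i
    rw [hα', ← hm2]
    exact hx0 i)
  have h2 : FreeGroup.lift (fun i => α (x i)) = α.comp (FreeGroup.lift x) := by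
    apply FreeGroup.ext_hom
    intro i
    simp
  rw [h2, MonoidHom.coe_comp] at h1
  exact Function.Injective.of_comp h1

end SurfaceGroup

end Pool.Agent.SurfGrowth
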