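import Mathlib
import Pool.Agent.SurfGrowth.Surface

set_option autoImplicit false

namespace Pool.Agent.SurfGrowth

open scoped commutatorElement

namespace SurfaceGroup

/-! ### transvections -/

/-- elementary transvection `e_a ↦ e_a + c e_b` -/
noncomputable def transv {Y : Type*} (a b : Y) (c : ℚ) : (Y →₀ ℚ) →ₗ[ℚ] (Y →₀ ℚ) :=
  LinearMap.id + c • (Finsupp.lsingle b ∘ₗ Finsupp.lapply a)

theorem transv_apply {Y : Type*} (a b : Y) (c : ℚ) (v : Y →₀ ℚ) :
    transv a b c v = v + Finsupp.single b (c * v a) := by
  simp [transv]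

theorem transv_ker {Y : Type*} {a b : Y} (hab : a ≠ b) (c : ℚ) :
    LinearMap.ker (transv a b c) = ⊥ := by
  classical
  rw [LinearMap.ker_eq_bot']
  intro v hv
  rw [transv_apply] at hv
  have h1 := DFunLike.congr_fun hv a
  rw [Finsupp.add_apply, Finsupp.single_apply, if_neg (Ne.symm hab), add_zero] at h1
  have h2 : v a = 0 := h1
  rw [h2, mul_zero, Finsupp.single_zero, add_zero] at hv
  exact hv

theorem transv_single_ne {Y : Type*} {a b y : Y} (h : y ≠ a) (c : ℚ) :
    transv a b c (Finsupp.single y 1) = Finsupp.single y 1 := by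
  classical
  rw [transv_apply, Finsupp.single_apply, if_neg h, mul_zero, Finsupp.single_zero, add_zero]

theorem transv_single_eq {Y : Type*} {a b : Y} (c : ℚ) :
    transv a b c (Finsupp.single a 1) = Finsupp.single a 1 + Finsupp.single b c := by
  rw [transv_apply, Finsupp.single_eq_same, mul_one]

theorem sum_mul_single {Y : Type*} [Fintype Y] (m : Y → ℤ) (y : Y) (c : ℚ) :
    ∑ z, (m z : ℚ) * (Finsupp.single y c) z = m y * c := by
  classical
  rw [Finset.sum_eq_single y]
  · rw [Finsupp.single_eq_same]
  · intro z _ hz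
    rw [Finsupp.single_apply, if_neg (Ne.symm hz), mul_zero]
  · simp

variable {g : ℕ}

theorem ab_mul (u v : SurfaceGroup g) : Multiplicative.toAdd (ab (u * v)) =
    Multiplicative.toAdd (ab u) + Multiplicative.toAdd (ab v) := by
  rw [map_mul, toAdd_mul]

theorem ab_inv (u : SurfaceGroup g) : Multiplicative.toAdd (ab (u⁻¹)) =
    - Multiplicative.toAdd (ab u) := by
  rw [map_inv, toAdd_inv]

theorem comm_aux1 {K : Type*} [Group K] (a b : K) (ε : ℤ) : ⁅a * b ^ ε, b⁆ = ⁅a, b⁆ := by
  simp only [commutatorElement_def]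
  group

theorem comm_aux2 {K : Type*} [Group K] (a b : K) (ε : ℤ) : ⁅a, b * a ^ ε⁆ = ⁅a, b⁆ := by
  simp only [commutatorElement_def]
  group

/-- the images of generators under a within-handle transvection -/
noncomputable def tGen (i : Fin g) (s : Bool) (ε : ℤ) (y : Fin g × Bool) : SurfaceGroup g :=
  open Classical in
  if y = (i, s) then gen (i, s) * gen (i, !s) ^ ε else gen y

theorem tGen_rel (i : Fin g) (s : Bool) (ε : ℤ) :
    (List.ofFn (fun k : Fin g => ⁅tGen i s ε (k, false), tGen i s ε (k, true)⁆)).prod = 1 := by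
  rw [← rel_eq_one (g := g)]
  congr 2
  funext k
  unfold tGen
  by_cases hk : k = i
  · subst hk
    cases s
    · simp [comm_aux1]
    · simp [comm_aux2]
  · rw [if_neg (by simp [hk]), if_neg (by simp [hk])]

theorem red_T (i : Fin g) (s : Bool) (ε : ℤ) {m m' : Fin g × Bool → ℤ}
    (h1 : m (i, s) = m' (i, s) + ε * m' (i, !s)) (h2 : ∀ y, y ≠ (i, s) → m y = m' y)
    (hm' : Good m') : Good m := by
  classical
  have hne : ((i, s) : Fin g × Bool) ≠ (i, !s) := by
    intro h
    have := (Prod.mk.inj h).2
    cases s <;> simp at this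
  refine hm'.transfer (toGroup (tGen i s ε) (tGen_rel i s ε)) (transv (i, s) (i, !s) (ε : ℚ))
    (transv_ker hne _) ?_ ?_
  · intro y
    rw [toGroup_gen]
    unfold tGen
    by_cases hy : y = (i, s)
    · subst hy
      rw [if_pos rfl, transv_single_eq, map_mul, map_zpow, toAdd_mul, toAdd_zpow, ab_gen, ab_gen]
      simp
    · rw [if_neg hy, transv_single_ne hy, ab_gen]
  · intro y
    by_cases hy : y = (i, s)
    · subst hy
      rw [transv_single_eq]
      simp only [Finsupp.add_apply, mul_add, Finset.sum_add_distrib]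
      rw [sum_mul_single, sum_mul_single, h1]
      push_cast
      ring
    · rw [transv_single_ne hy, sum_mul_single, h2 y hy, mul_one]

/-! ### handle slide between handle `0` and another handle -/

theorem ofFn_prod_split {K : Type*} [Monoid K] {n : ℕ} (f : Fin n → K) (j : Fin n) :
    (List.ofFn f).prod = ((List.ofFn f).take j).prod * f j * ((List.ofFn f).drop (j + 1)).prod := by
  have h : List.ofFn f = (List.ofFn f).take j ++ f j :: (List.ofFn f).drop (j + 1) := by
    have h1 : (List.ofFn f).drop j = f j :: (List.ofFn f).drop (j + 1) := by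
      rw [List.drop_eq_getElem_cons (by simp)]
      simp
    rw [← h1, List.take_append_drop]
  nth_rewrite 1 [h]
  rw [List.prod_append, List.prod_cons, mul_assoc]

theorem take_congr {K : Type*} {n : ℕ} (f f' : Fin n → K) (j : Fin n)
    (h : ∀ k, k ≠ j → f' k = f k) : (List.ofFn f').take j = (List.ofFn f).take j := by
  apply List.ext_getElem
  · simp
  · intro k h1 h2
    simp only [List.getElem_take, List.getElem_ofFn]
    apply h
    intro hk
    simp only [List.length_take, List.length_ofFn] at h1
    have : k < j.val := by omega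
    rw [← hk] at this
    simp at this

theorem drop_congr {K : Type*} {n : ℕ} (f f' : Fin n → K) (j : Fin n)
    (h : ∀ k, k ≠ j → f' k = f k) : (List.ofFn f').drop (j + 1) = (List.ofFn f).drop (j + 1) := by
  apply List.ext_getElem
  · simp
  · intro k h1 h2
    simp only [List.getElem_drop, List.getElem_ofFn]
    apply h
    intro hk
    have := congrArg Fin.val hk
    simp only at this
    omega

section Slide

variable {n : ℕ} (j : Fin n)

/-- the product of commutators strictly between handle `0` and handle `j+1` -/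
noncomputable def midZ : SurfaceGroup (n + 1) :=
  ((List.ofFn (fun k : Fin n => ⁅gen (g := n + 1) (k.succ, false), gen (k.succ, true)⁆)).take j).prod

/-- word `P = b a b⁻¹` -/
noncomputable def slP : SurfaceGroup (n + 1) := gen (0, true) * gen (0, false) * (gen (0, true))⁻¹

/-- word `β = P b P⁻¹` -/
noncomputable def slB : SurfaceGroup (n + 1) := slP * gen (0, true) * (slP)⁻¹

/-- images of the generators under the slide -/
noncomputable def sGen (y : Fin (n + 1) × Bool) : SurfaceGroup (n + 1) :=
  open Classical in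
  if y = (0, false) then
    gen (0, false) * slP⁻¹ * (midZ j * gen (j.succ, false) * (midZ j)⁻¹) * slP
  else if y = (j.succ, false) then
    (midZ j)⁻¹ * (slB * (midZ j * gen (j.succ, false) * (midZ j)⁻¹) * slB⁻¹) * midZ j
  else if y = (j.succ, true) then
    (midZ j)⁻¹ * ((midZ j * gen (j.succ, true) * (midZ j)⁻¹) * slB⁻¹) * midZ j
  else gen y

theorem slide_identity {K : Type*} [Group K] (a b c d Z : K) :
    let P := b * a * b⁻¹
    let β := P * b * P⁻¹
    ⁅a * P⁻¹ * (Z * c * Z⁻¹) * P, b⁆ * (Z *
      ⁅Z⁻¹ * (β * (Z * c * Z⁻¹) * β⁻¹) * Z, Z⁻¹ * ((Z * d * Z⁻¹) * β⁻¹) * Z⁆) =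
    ⁅a, b⁆ * (Z * ⁅c, d⁆) := by
  simp only [commutatorElement_def]
  group

theorem sGen_rel :
    (List.ofFn (fun k : Fin (n + 1) => ⁅sGen j (k, false), sGen j (k, true)⁆)).prod = 1 := by
  rw [← rel_eq_one (g := n + 1)]
  rw [List.ofFn_succ, List.ofFn_succ, List.prod_cons, List.prod_cons]
  have hoff : ∀ k : Fin n, k ≠ j → ⁅sGen j (k.succ, false), sGen j (k.succ, true)⁆ =
      ⁅gen (k.succ, false), gen (k.succ, true)⁆ := by
    intro k hk
    have h1 : sGen j (k.succ, false) = gen (k.succ, false) := by
      unfold sGen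
      rw [if_neg (by simp [Fin.succ_ne_zero]), if_neg (by simp [hk]), if_neg (by simp)]
    have h2 : sGen j (k.succ, true) = gen (k.succ, true) := by
      unfold sGen
      rw [if_neg (by simp), if_neg (by simp), if_neg (by simp [hk])]
    rw [h1, h2]
  rw [ofFn_prod_split _ j, take_congr _ _ j hoff, drop_congr _ _ j hoff]
  rw [ofFn_prod_split (fun k : Fin n => ⁅gen (k.succ, false), gen (k.succ, true)⁆) j]
  have e0 : sGen j (0, false) =
      gen (0, false) * slP⁻¹ * (midZ j * gen (j.succ, false) * (midZ j)⁻¹) * slP := by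
    unfold sGen
    rw [if_pos rfl]
  have e1 : sGen j (0, true) = gen (0, true) := by
    unfold sGen
    rw [if_neg (by simp), if_neg (by simp), if_neg (by simp [(Fin.succ_ne_zero j).symm])]
  have e2 : sGen j (j.succ, false) =
      (midZ j)⁻¹ * (slB * (midZ j * gen (j.succ, false) * (midZ j)⁻¹) * slB⁻¹) * midZ j := by
    unfold sGen
    rw [if_neg (by simp [Fin.succ_ne_zero]), if_pos rfl]
  have e3 : sGen j (j.succ, true) =
      (midZ j)⁻¹ * ((midZ j * gen (j.succ, true) * (midZ j)⁻¹) * slB⁻¹) * midZ j := by
    unfold sGen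
    rw [if_neg (by simp), if_neg (by simp), if_pos rfl]
  rw [e0, e1, e2, e3]
  have key := slide_identity (gen (g := n + 1) (0, false)) (gen (0, true)) (gen (j.succ, false))
    (gen (j.succ, true)) (midZ j)
  simp only at key
  have reassoc : ∀ u z v u' v' q : SurfaceGroup (n + 1), u * (z * v) = u' * (z * v') →
      u * (z * v * q) = u' * (z * v' * q) := by
    intro u z v u' v' q h
    calc u * (z * v * q) = (u * (z * v)) * q := by simp only [mul_assoc]
      _ = (u' * (z * v')) * q := by rw [h]
      _ = _ := by simp only [mul_assoc]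
  exact reassoc _ _ _ _ _ _ key

theorem red_slide {m m' : Fin (n + 1) × Bool → ℤ}
    (h1 : m (0, false) = m' (0, false) + m' (j.succ, false))
    (h2 : m (j.succ, true) = m' (j.succ, true) - m' (0, true))
    (h3 : ∀ y, y ≠ (0, false) → y ≠ (j.succ, true) → m y = m' y)
    (hm' : Good m') : Good m := by
  classical
  have n1 : ((0, false) : Fin (n + 1) × Bool) ≠ (j.succ, false) := by
    simp [(Fin.succ_ne_zero j).symm]
  have n2 : ((j.succ, true) : Fin (n + 1) × Bool) ≠ (0, true) := by
    simp [Fin.succ_ne_zero j]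
  have n3 : ((j.succ, true) : Fin (n + 1) × Bool) ≠ (0, false) := by simp
  have n4 : ((0, true) : Fin (n + 1) × Bool) ≠ (0, false) := by simp
  let L1 := transv ((0, false) : Fin (n + 1) × Bool) (j.succ, false) 1
  let L2 := transv ((j.succ, true) : Fin (n + 1) × Bool) (0, true) (-1)
  have hL2a : L1 (L2 (Finsupp.single (0, false) 1)) =
      Finsupp.single (0, false) 1 + Finsupp.single (j.succ, false) 1 := by
    simp only [L1, L2]
    rw [transv_single_ne n3.symm, transv_single_eq]
  have hL2b : L1 (L2 (Finsupp.single (j.succ, true) 1)) =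
      Finsupp.single (j.succ, true) 1 + Finsupp.single (0, true) (-1) := by
    simp only [L1, L2]
    rw [transv_single_eq, map_add, transv_single_ne n3]
    have : Finsupp.single ((0, true) : Fin (n + 1) × Bool) (-1 : ℚ) =
        (-1 : ℚ) • Finsupp.single (0, true) 1 := by simp
    rw [this, map_smul, transv_single_ne n4]
  have hL2c : ∀ y, y ≠ (0, false) → y ≠ (j.succ, true) →
      L1 (L2 (Finsupp.single y 1)) = Finsupp.single y 1 := by
    intro y hy1 hy2
    simp only [L1, L2]
    rw [transv_single_ne hy2, transv_single_ne hy1]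
  have abconj : ∀ u v : SurfaceGroup (n + 1), Multiplicative.toAdd (ab (u * v * u⁻¹)) =
      Multiplicative.toAdd (ab v) := by
    intro u v
    rw [ab_mul, ab_mul, ab_inv]
    abel
  have abconj' : ∀ u v : SurfaceGroup (n + 1), Multiplicative.toAdd (ab (u⁻¹ * v * u)) =
      Multiplicative.toAdd (ab v) := by
    intro u v
    rw [ab_mul, ab_mul, ab_inv]
    abel
  refine hm'.transfer (toGroup (sGen j) (sGen_rel j)) (L1 ∘ₗ L2) ?_ ?_ ?_
  · rw [LinearMap.ker_eq_bot, LinearMap.coe_comp]
    exact (LinearMap.ker_eq_bot.mp (transv_ker n1 _)).comp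
      (LinearMap.ker_eq_bot.mp (transv_ker n2 _))
  · intro y
    rw [toGroup_gen, LinearMap.comp_apply]
    by_cases hy1 : y = (0, false)
    · subst hy1
      rw [hL2a]
      unfold sGen
      rw [if_pos rfl]
      have : gen (0, false) * slP⁻¹ * (midZ j * gen (j.succ, false) * (midZ j)⁻¹) * slP =
        gen (0, false) * (slP⁻¹ * (midZ j * gen (j.succ, false) * (midZ j)⁻¹) * slP) := by
        simp only [mul_assoc]
      rw [this, ab_mul, abconj', abconj, ab_gen, ab_gen]
    · by_cases hy2 : y = (j.succ, true)
      · subst hy2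
        rw [hL2b]
        unfold sGen
        rw [if_neg (by simp), if_neg (by simp), if_pos rfl, abconj', ab_mul, abconj,
          ab_inv, slB, abconj, ab_gen, ab_gen]
        simp
      · rw [hL2c y hy1 hy2]
        unfold sGen
        rw [if_neg hy1]
        by_cases hy3 : y = (j.succ, false)
        · subst hy3
          rw [if_pos rfl, abconj', abconj, abconj, ab_gen]
        · rw [if_neg hy3, if_neg hy2, ab_gen]
  · intro y
    rw [LinearMap.comp_apply]
    by_cases hy1 : y = (0, false)
    · subst hy1
      rw [hL2a]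
      simp only [Finsupp.add_apply, mul_add, Finset.sum_add_distrib]
      rw [sum_mul_single, sum_mul_single, h1]
      push_cast
      ring
    · by_cases hy2 : y = (j.succ, true)
      · subst hy2
        rw [hL2b]
        simp only [Finsupp.add_apply, mul_add, Finset.sum_add_distrib]
        rw [sum_mul_single, sum_mul_single, h2]
        push_cast
        ring
      · rw [hL2c y hy1 hy2, sum_mul_single, h3 y hy1 hy2, mul_one]

end Slide

end SurfaceGroup

end Pool.Agent.SurfGrowth
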