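import Mathlib
import Pool.Agent.SurfGrowth.Moves

set_option autoImplicit false

namespace Pool.Agent.SurfGrowth

open scoped commutatorElement

namespace SurfaceGroup

variable (n : ℕ)

/-- all generators except `a_0` -/
abbrev Kap : Type := {y : Fin (n + 1) × Bool // y ≠ (0, false)}

variable {n}

/-- generator `b_0` -/
def kb : Kap n := ⟨(0, true), by simp⟩

/-- the other generators -/
def ks (k : Fin n) (s : Bool) : Kap n := ⟨(k.succ, s), by simp [Fin.succ_ne_zero]⟩

theorem ks_ne_kb (k : Fin n) (s : Bool) : ks k s ≠ kb := by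
  intro h
  have := congrArg (fun z => z.1.1) h
  simp [ks, kb, Fin.succ_ne_zero] at this

/-- product of the commutators of handles `1,…,n` -/
def kR : FreeGroup (Kap n) :=
  (List.ofFn (fun k : Fin n => ⁅FreeGroup.of (ks k false), FreeGroup.of (ks k true)⁆)).prod

open Classical in
/-- endomorphism `b_0 ↦ u b_0`, other generators fixed -/
noncomputable def th (u : FreeGroup (Kap n)) : FreeGroup (Kap n) →* FreeGroup (Kap n) :=
  FreeGroup.lift (fun y => if y = kb then u * FreeGroup.of y else FreeGroup.of y)

theorem th_kb (u : FreeGroup (Kap n)) : th u (FreeGroup.of kb) = u * FreeGroup.of kb := by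
  simp [th]

theorem th_ne (u : FreeGroup (Kap n)) {y : Kap n} (h : y ≠ kb) :
    th u (FreeGroup.of y) = FreeGroup.of y := by
  simp [th, h]

theorem th_kR (u : FreeGroup (Kap n)) : th u kR = kR := by
  unfold kR
  rw [map_list_prod, List.map_ofFn]
  have h : (⇑(th u) ∘ fun k : Fin n => ⁅FreeGroup.of (ks k false), FreeGroup.of (ks k true)⁆) =
      fun k : Fin n => ⁅FreeGroup.of (ks k false), FreeGroup.of (ks k true)⁆ := by
    funext k
    simp only [Function.comp_apply, map_commutatorElement]
    rw [th_ne u (ks_ne_kb k false), th_ne u (ks_ne_kb k true)]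
  rw [h]

theorem th_comp (u v : FreeGroup (Kap n)) (hv : th u v = v) (huv : v * u = 1) :
    (th u).comp (th v) = MonoidHom.id _ := by
  apply FreeGroup.ext_hom
  intro y
  by_cases hy : y = kb
  · subst hy
    rw [MonoidHom.comp_apply, th_kb, map_mul, th_kb, hv, ← mul_assoc, huv, one_mul]
    rfl
  · rw [MonoidHom.comp_apply, th_ne v hy, th_ne u hy]
    rfl

/-- the automorphism `b_0 ↦ R⁻¹ b_0` -/
noncomputable def thAut : MulAut (FreeGroup (Kap n)) :=
  MonoidHom.toMulEquiv (th (kR (n := n))⁻¹) (th (kR (n := n)))
    (th_comp _ _ (by rw [map_inv, th_kR]) (by simp))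
    (th_comp _ _ (th_kR _) (by simp))

theorem thAut_apply (w : FreeGroup (Kap n)) : thAut w = th (kR (n := n))⁻¹ w := rfl

/-- the action of `ℤ` -/
noncomputable def act : Multiplicative ℤ →* MulAut (FreeGroup (Kap n)) :=
  zpowersHom _ thAut

theorem act_one (w : FreeGroup (Kap n)) : act (Multiplicative.ofAdd 1) w = thAut w := by
  simp [act]

/-- the target group -/
abbrev Tgt (n : ℕ) : Type := SemidirectProduct (FreeGroup (Kap n)) (Multiplicative ℤ) act

/-- images of generators -/
noncomputable def pGen (y : Fin (n + 1) × Bool) : Tgt n :=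
  if h : y = (0, false) then SemidirectProduct.inr (Multiplicative.ofAdd 1)
  else SemidirectProduct.inl (FreeGroup.of ⟨y, h⟩)

theorem pGen_rel : (List.ofFn (fun k : Fin (n + 1) => ⁅pGen (k, false), pGen (k, true)⁆)).prod
    = 1 := by
  rw [List.ofFn_succ, List.prod_cons]
  have e0 : pGen ((0, false) : Fin (n + 1) × Bool) =
      SemidirectProduct.inr (Multiplicative.ofAdd 1) := by
    unfold pGen
    rw [dif_pos rfl]
  have e1 : pGen ((0, true) : Fin (n + 1) × Bool) = SemidirectProduct.inl (FreeGroup.of kb) := by
    unfold pGen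
    rw [dif_neg (by simp)]
    rfl
  have e2 : ∀ (k : Fin n) (s : Bool), pGen ((k.succ, s) : Fin (n + 1) × Bool) =
      SemidirectProduct.inl (FreeGroup.of (ks k s)) := by
    intro k s
    unfold pGen
    rw [dif_neg (by simp [Fin.succ_ne_zero])]
    rfl
  have e3 : (List.ofFn (fun k : Fin n => ⁅pGen ((k.succ, false) : Fin (n + 1) × Bool),
      pGen (k.succ, true)⁆)).prod = SemidirectProduct.inl kR := by
    unfold kR
    rw [map_list_prod, List.map_ofFn]
    have h : (fun k : Fin n => ⁅pGen ((k.succ, false) : Fin (n + 1) × Bool),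
        pGen (k.succ, true)⁆) = (⇑(SemidirectProduct.inl (φ := act (n := n))) ∘
        fun k : Fin n => ⁅FreeGroup.of (ks k false), FreeGroup.of (ks k true)⁆) := by
      funext k
      simp only [Function.comp_apply, map_commutatorElement]
      rw [e2, e2]
    rw [h]
  rw [e3, e0, e1]
  rw [commutatorElement_def, ← map_inv SemidirectProduct.inr, ← SemidirectProduct.inl_aut,
    ← map_inv, ← map_mul, ← map_mul, act_one, thAut_apply, th_kb]
  have : kR⁻¹ * FreeGroup.of kb * (FreeGroup.of kb)⁻¹ * kR = (1 : FreeGroup (Kap n)) := by group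
  rw [this, map_one]

/-- the homomorphism to the semidirect product -/
noncomputable def prj : SurfaceGroup (n + 1) →* Tgt n := toGroup pGen pGen_rel

theorem abQ_mul {α : Type*} (u v : FreeGroup α) : Multiplicative.toAdd (abQ α (u * v)) =
    Multiplicative.toAdd (abQ α u) + Multiplicative.toAdd (abQ α v) := by
  rw [map_mul, toAdd_mul]

theorem abQ_kR : abQ (Kap n) kR = 1 := by
  unfold kR
  rw [map_list_prod, List.map_ofFn]
  have : (⇑(abQ (Kap n)) ∘ fun k : Fin n => ⁅FreeGroup.of (ks k false), FreeGroup.of (ks k true)⁆) =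
      fun _ => 1 := by
    funext k
    simp only [Function.comp_apply, map_commutatorElement]
    rw [commutatorElement_eq_one_iff_mul_comm]
    exact mul_comm _ _
  rw [this]
  simp

theorem abQ_thAut (w : FreeGroup (Kap n)) : abQ (Kap n) (thAut w) = abQ (Kap n) w := by
  rw [thAut_apply]
  have : (abQ (Kap n)).comp (th (kR (n := n))⁻¹) = abQ (Kap n) := by
    apply FreeGroup.ext_hom
    intro y
    by_cases hy : y = kb
    · subst hy
      rw [MonoidHom.comp_apply, th_kb, map_mul, map_inv, abQ_kR, inv_one, one_mul]
    · rw [MonoidHom.comp_apply, th_ne _ hy]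
  exact DFunLike.congr_fun this w

theorem abQ_zpow (k : ℤ) (w : FreeGroup (Kap n)) :
    abQ (Kap n) ((thAut ^ k) w) = abQ (Kap n) w := by
  have hinv : ∀ w, abQ (Kap n) (thAut⁻¹ w) = abQ (Kap n) w := by
    intro w
    rw [← abQ_thAut, ← MulAut.mul_apply, mul_inv_cancel, MulAut.one_apply]
  induction k using Int.induction_on generalizing w with
  | zero => simp
  | succ k ih => rw [zpow_add_one, MulAut.mul_apply, ih, abQ_thAut]
  | pred k ih => rw [zpow_sub_one, MulAut.mul_apply, ih, hinv]

/-- abelianization of the free part -/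
noncomputable def psi : Tgt n →* Multiplicative (Kap n →₀ ℚ) :=
  SemidirectProduct.lift (abQ (Kap n)) 1 (by
    intro k
    apply MonoidHom.ext
    intro w
    show abQ (Kap n) (act k w) = MulAut.conj (1 : Multiplicative (Kap n →₀ ℚ)) (abQ (Kap n) w)
    rw [map_one]
    show abQ (Kap n) (act k w) = abQ (Kap n) w
    have : (act (n := n)) k = (thAut (n := n)) ^ (Multiplicative.toAdd k) := by
      simp [act]
    rw [this, abQ_zpow])

/-- restriction of coordinates -/
noncomputable def res : ((Fin (n + 1) × Bool) →₀ ℚ) →ₗ[ℚ] (Kap n →₀ ℚ) :=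
  Finsupp.lsubtypeDomain {y : Fin (n + 1) × Bool | y ≠ (0, false)}

theorem psi_prj (z : SurfaceGroup (n + 1)) :
    Multiplicative.toAdd (psi (prj z)) = res (Multiplicative.toAdd (ab z)) := by
  let F1 : SurfaceGroup (n + 1) →* Multiplicative (Kap n →₀ ℚ) :=
    (AddMonoidHom.toMultiplicative (res (n := n)).toAddMonoidHom).comp ab
  have h : psi.comp prj = F1 := by
    apply hom_ext
    intro y
    apply Multiplicative.toAdd.injective
    show Multiplicative.toAdd (psi (prj (gen y))) = res (Multiplicative.toAdd (ab (gen y)))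
    rw [ab_gen]
    unfold prj
    rw [toGroup_gen]
    unfold pGen
    by_cases hy : y = (0, false)
    · subst hy
      rw [dif_pos rfl]
      simp only [psi, SemidirectProduct.lift_inr, MonoidHom.one_apply, toAdd_one]
      symm
      ext k
      have hk : ((0, false) : Fin (n + 1) × Bool) ≠ k.1 := fun h => k.2 h.symm
      show (Finsupp.single ((0, false) : Fin (n + 1) × Bool) (1 : ℚ)) k.1 = 0
      exact Finsupp.single_eq_of_ne' hk
    · rw [dif_neg hy]
      simp only [psi, SemidirectProduct.lift_inl]
      rw [abQ_of]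
      ext k
      show (Finsupp.single (⟨y, hy⟩ : Kap n) (1 : ℚ)) k =
        (Finsupp.single y (1 : ℚ)) k.1
      by_cases hk : y = k.1
      · have : (⟨y, hy⟩ : Kap n) = k := Subtype.ext hk
        rw [this, hk, Finsupp.single_eq_same, Finsupp.single_eq_same]
      · rw [Finsupp.single_eq_of_ne' (fun h => hk (congrArg Subtype.val h)),
          Finsupp.single_eq_of_ne' hk]
  exact congrArg Multiplicative.toAdd (DFunLike.congr_fun h z)

theorem right_prj (z : SurfaceGroup (n + 1)) :
    ((Multiplicative.toAdd (prj z).right : ℤ) : ℚ) = (Multiplicative.toAdd (ab z)) (0, false) := by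
  let F1 : SurfaceGroup (n + 1) →* Multiplicative ℚ :=
    (AddMonoidHom.toMultiplicative (Finsupp.applyAddHom ((0, false) : Fin (n + 1) × Bool))).comp ab
  let F2 : SurfaceGroup (n + 1) →* Multiplicative ℚ :=
    (AddMonoidHom.toMultiplicative (Int.castAddHom ℚ)).comp
      (SemidirectProduct.rightHom.comp prj)
  have h : F2 = F1 := by
    apply hom_ext
    intro y
    apply Multiplicative.toAdd.injective
    show ((Multiplicative.toAdd (prj (gen y)).right : ℤ) : ℚ) =
      (Multiplicative.toAdd (ab (gen y))) (0, false)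
    rw [ab_gen]
    unfold prj
    rw [toGroup_gen]
    unfold pGen
    by_cases hy : y = (0, false)
    · subst hy
      rw [dif_pos rfl]
      simp
    · rw [dif_neg hy, Finsupp.single_eq_of_ne' hy]
      simp
  exact congrArg Multiplicative.toAdd (DFunLike.congr_fun h z)

/-- Base case: functionals supported on `a_0`. -/
theorem good_base {m : Fin (n + 1) × Bool → ℤ} (h0 : m (0, false) ≠ 0)
    (h1 : ∀ y, y ≠ (0, false) → m y = 0) : Good m := by
  intro ι _ x hx hx0
  have hz : ∀ i, (Multiplicative.toAdd (ab (x i))) (0, false) = 0 := by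
    intro i
    have h2 := hx0 i
    rw [Finset.sum_eq_single (0, false)] at h2
    · rcases mul_eq_zero.mp h2 with h3 | h3
      · exact absurd (by exact_mod_cast h3) h0
      · exact h3
    · intro y _ hy
      rw [h1 y hy]
      simp
    · simp
  have hright : ∀ i, (prj (x i)).right = 1 := by
    intro i
    have h2 := right_prj (x i)
    rw [hz i] at h2
    have h3 : (Multiplicative.toAdd (prj (x i)).right : ℤ) = 0 := by exact_mod_cast h2
    exact Multiplicative.toAdd.injective h3
  let y : ι → FreeGroup (Kap n) := fun i => (prj (x i)).left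
  have hy : ∀ i, prj (x i) = SemidirectProduct.inl (y i) := by
    intro i
    ext
    · rfl
    · rw [hright i]
      simp
  have hab : ∀ i, Multiplicative.toAdd (abQ (Kap n) (y i)) =
      res (Multiplicative.toAdd (ab (x i))) := by
    intro i
    rw [← psi_prj, hy i]
    simp [psi]
  have hlin : LinearIndependent ℚ (fun i => Multiplicative.toAdd (abQ (Kap n) (y i))) := by
    simp_rw [hab]
    apply hx.map
    rw [Submodule.disjoint_def]
    intro v hv hker
    have hv0 : v (0, false) = 0 := by
      have : Submodule.span ℚ (Set.range fun i => Multiplicative.toAdd (ab (x i))) ≤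
          LinearMap.ker (Finsupp.lapply (R := ℚ) ((0, false) : Fin (n + 1) × Bool)) := by
        rw [Submodule.span_le]
        rintro _ ⟨i, rfl⟩
        exact hz i
      exact this hv
    ext z
    by_cases hzz : z = (0, false)
    · rw [hzz]; exact hv0
    · rw [LinearMap.mem_ker] at hker
      exact DFunLike.congr_fun hker ⟨z, hzz⟩
  have hfree := lift_injective_of_linearIndependent y hlin
  have hcomp : ∀ w, prj (FreeGroup.lift x w) = SemidirectProduct.inl (FreeGroup.lift y w) := by
    have : prj.comp (FreeGroup.lift x) = SemidirectProduct.inl.comp (FreeGroup.lift y) := by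
      apply FreeGroup.ext_hom
      intro i
      simp [hy i]
    exact fun w => DFunLike.congr_fun this w
  intro w w' hww
  have h3 := congrArg prj hww
  rw [hcomp, hcomp] at h3
  exact hfree (SemidirectProduct.inl_injective h3)

end SurfaceGroup

end Pool.Agent.SurfGrowth
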