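import Mathlib
import Pool.Agent.SurfGrowth.Base

set_option autoImplicit false

namespace Pool.Agent.SurfGrowth

namespace SurfaceGroup

/-- change the two values of the functional on handle `i` -/
def setH {g : ℕ} (m : Fin g × Bool → ℤ) (i : Fin g) (x y : ℤ) : Fin g × Bool → ℤ :=
  fun z => if z.1 = i then (if z.2 then y else x) else m z

theorem setH_self {g : ℕ} (m : Fin g × Bool → ℤ) (i : Fin g) :
    setH m i (m (i, false)) (m (i, true)) = m := by
  funext z
  rcases z with ⟨k, s⟩
  unfold setH
  by_cases hk : k = i
  · subst hk
    cases s <;> simp
  · simp [hk]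

theorem setH_comm {g : ℕ} (m : Fin g × Bool → ℤ) {i j : Fin g} (hij : i ≠ j) (x y x' y' : ℤ) :
    setH (setH m i x y) j x' y' = setH (setH m j x' y') i x y := by
  funext z
  rcases z with ⟨k, s⟩
  unfold setH
  by_cases hk : k = i
  · subst hk
    simp [hij]
  · simp [hk]

section

variable {g : ℕ} {m : Fin g × Bool → ℤ} {i : Fin g} {x y : ℤ}

theorem redA (ε : ℤ) (h : Good (setH m i (x - ε * y) y)) : Good (setH m i x y) := by
  refine red_T i false ε ?_ ?_ h
  · simp [setH]
  · rintro ⟨k, s⟩ hk
    unfold setH
    by_cases hki : k = i
    · subst hki
      cases s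
      · exact absurd rfl hk
      · simp
    · simp [hki]

theorem redB (ε : ℤ) (h : Good (setH m i x (y - ε * x))) : Good (setH m i x y) := by
  refine red_T i true ε ?_ ?_ h
  · simp [setH]
  · rintro ⟨k, s⟩ hk
    unfold setH
    by_cases hki : k = i
    · subst hki
      cases s
      · simp
      · exact absurd rfl hk
    · simp [hki]

theorem rot (h : Good (setH m i (-y) x)) : Good (setH m i x y) := by
  apply redA 1
  apply redB (-1)
  apply redA 1
  convert h using 2 <;> ring

theorem neg (h : Good (setH m i (-x) (-y))) : Good (setH m i x y) := by
  apply rot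
  apply rot
  exact h

theorem rot3 (h : Good (setH m i y (-x))) : Good (setH m i x y) := by
  apply neg
  apply rot
  rw [neg_neg]
  exact h

/-- a handle with one vanishing coordinate can be normalised -/
theorem norm_handle (hxy : x = 0 ∨ y = 0) :
    ∃ X : ℤ, X.natAbs = x.natAbs + y.natAbs ∧
      ∀ (M : Fin g × Bool → ℤ), Good (setH M i X 0) → Good (setH M i x y) := by
  rcases hxy with h | h
  · refine ⟨-y, by simp [h], ?_⟩
    intro M hM
    apply rot
    rw [h]
    exact hM
  · refine ⟨x, by simp [h], ?_⟩
    intro M hM
    rw [h]
    exact hM

end

section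

variable {n : ℕ} {m : Fin (n + 1) × Bool → ℤ} {j : Fin n} {x y x' y' : ℤ}

theorem slide (h : Good (setH (setH m 0 (x - x') y) j.succ x' (y' + y))) :
    Good (setH (setH m 0 x y) j.succ x' y') := by
  have hne : (0 : Fin (n + 1)) ≠ j.succ := (Fin.succ_ne_zero j).symm
  refine red_slide j ?_ ?_ ?_ h
  · simp [setH, hne]
  · simp [setH, hne]
  · rintro ⟨k, s⟩ h1 h2
    unfold setH
    by_cases hk : k = j.succ
    · subst hk
      cases s
      · simp
      · exact absurd rfl h2
    · by_cases hk0 : k = 0
      · subst hk0
        cases s
        · exact absurd rfl h1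
        · simp [hne]
      · simp [hk, hk0]

theorem at0 {x2 y2 : ℤ} (hred : ∀ M : Fin (n + 1) × Bool → ℤ, Good (setH M 0 x2 y2) →
      Good (setH M 0 x y))
    (h : Good (setH (setH m 0 x2 y2) j.succ x' y')) : Good (setH (setH m 0 x y) j.succ x' y') := by
  have hne : (0 : Fin (n + 1)) ≠ j.succ := (Fin.succ_ne_zero j).symm
  rw [setH_comm m hne] at h ⊢
  exact hred _ h

theorem s1 (h : Good (setH (setH m 0 (x - x') 0) j.succ x' 0)) :
    Good (setH (setH m 0 x 0) j.succ x' 0) := by
  apply slide
  rw [add_zero]
  exact h

theorem s1' (h : Good (setH (setH m 0 (x + x') 0) j.succ x' 0)) :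
    Good (setH (setH m 0 x 0) j.succ x' 0) := by
  apply neg
  rw [neg_zero]
  apply s1
  rw [sub_neg_eq_add]
  apply neg
  rw [neg_zero, neg_neg]
  exact h

theorem s2 (h : Good (setH (setH m 0 x 0) j.succ (x' + x) 0)) :
    Good (setH (setH m 0 x 0) j.succ x' 0) := by
  apply rot
  refine at0 (x2 := -0) (y2 := x) (fun M hM => rot hM) ?_
  rw [neg_zero]
  apply slide
  rw [sub_zero]
  refine at0 (x2 := x) (y2 := -0) (fun M hM => rot3 hM) ?_
  apply rot3
  rw [neg_zero]
  exact h

theorem s2' (h : Good (setH (setH m 0 x 0) j.succ (x' - x) 0)) :
    Good (setH (setH m 0 x 0) j.succ x' 0) := by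
  refine at0 (x2 := -x) (y2 := -0) (fun M hM => neg hM) ?_
  rw [neg_zero]
  apply s2
  rw [← sub_eq_add_neg]
  refine at0 (x2 := - -x) (y2 := -0) (fun M hM => neg hM) ?_
  rw [neg_neg, neg_zero]
  exact h

/-- the weight used for the Euclidean algorithm -/
def wt (m : Fin (n + 1) × Bool → ℤ) : ℕ :=
  ((m (0, false)).natAbs + (m (0, true)).natAbs) +
    2 * ∑ k : Fin n, ((m (k.succ, false)).natAbs + (m (k.succ, true)).natAbs)

theorem wt_split (m : Fin (n + 1) × Bool → ℤ) (j : Fin n) :
    wt m = ((m (0, false)).natAbs + (m (0, true)).natAbs) +
      2 * ((m (j.succ, false)).natAbs + (m (j.succ, true)).natAbs) +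
      2 * ∑ k ∈ Finset.univ.erase j, ((m (k.succ, false)).natAbs + (m (k.succ, true)).natAbs) := by
  unfold wt
  rw [← Finset.add_sum_erase _ _ (Finset.mem_univ j)]
  ring

theorem wt_S4 (m : Fin (n + 1) × Bool → ℤ) (j : Fin n) (x y x' y' : ℤ) :
    wt (setH (setH m 0 x y) j.succ x' y') = (x.natAbs + y.natAbs) +
      2 * (x'.natAbs + y'.natAbs) +
      2 * ∑ k ∈ Finset.univ.erase j, ((m (k.succ, false)).natAbs + (m (k.succ, true)).natAbs) := by
  have hne : (0 : Fin (n + 1)) ≠ j.succ := (Fin.succ_ne_zero j).symm
  rw [wt_split _ j]
  congr 1
  · simp [setH, hne]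
  · congr 1
    apply Finset.sum_congr rfl
    intro k hk
    rw [Finset.mem_erase] at hk
    simp [setH, hk.1, Fin.succ_ne_zero]

theorem exists_sign (x y : ℤ) (hy : y ≠ 0) (h : y.natAbs ≤ x.natAbs) :
    ∃ ε : ℤ, (ε = 1 ∨ ε = -1) ∧ (x - ε * y).natAbs < x.natAbs := by
  rcases le_total 0 x with hx | hx <;> rcases le_total 0 y with hy' | hy'
  · exact ⟨1, Or.inl rfl, by omega⟩
  · exact ⟨-1, Or.inr rfl, by omega⟩
  · exact ⟨-1, Or.inr rfl, by omega⟩
  · exact ⟨1, Or.inl rfl, by omega⟩

theorem good_all_aux (N : ℕ) : ∀ m : Fin (n + 1) × Bool → ℤ, wt m = N → m ≠ 0 → Good m := by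
  induction N using Nat.strong_induction_on with
  | _ N ih =>
    intro m hN hm
    -- Case A
    by_cases hA : ∃ i, m (i, false) ≠ 0 ∧ m (i, true) ≠ 0
    · obtain ⟨i, h1, h2⟩ := hA
      have wt_lt : ∀ m' : Fin (n + 1) × Bool → ℤ, (∀ z, (m' z).natAbs ≤ (m z).natAbs) →
          (∃ z, (m' z).natAbs < (m z).natAbs) → wt m' < wt m := by
        rintro m' hle ⟨⟨k, s⟩, hlt⟩
        unfold wt
        refine Fin.cases ?_ (fun k' => ?_) k hlt
        · intro hlt0
          have a1 := hle (0, false)
          have a2 := hle (0, true)
          have a3 : ∑ k : Fin n, ((m' (k.succ, false)).natAbs + (m' (k.succ, true)).natAbs) ≤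
            ∑ k : Fin n, ((m (k.succ, false)).natAbs + (m (k.succ, true)).natAbs) :=
            Finset.sum_le_sum (fun k _ => Nat.add_le_add (hle _) (hle _))
          cases s <;> omega
        · intro hlt0
          have a1 := hle (0, false)
          have a2 := hle (0, true)
          have a3 : ∑ k : Fin n, ((m' (k.succ, false)).natAbs + (m' (k.succ, true)).natAbs) <
            ∑ k : Fin n, ((m (k.succ, false)).natAbs + (m (k.succ, true)).natAbs) := by
            apply Finset.sum_lt_sum (fun k _ => Nat.add_le_add (hle _) (hle _))
            refine ⟨k', Finset.mem_univ _, ?_⟩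
            have b1 := hle (k'.succ, false)
            have b2 := hle (k'.succ, true)
            cases s <;> omega
          omega
      rw [← setH_self m i]
      rcases le_total (m (i, true)).natAbs (m (i, false)).natAbs with hle | hle
      · obtain ⟨ε, _, hε⟩ := exists_sign _ _ h2 hle
        apply redA ε
        apply ih _ _ _ rfl
        · intro h0
          have := congrFun h0 (i, true)
          simp only [setH, if_true, Pi.zero_apply] at this
          exact h2 this
        · rw [← hN]
          apply wt_lt
          · rintro ⟨k, s⟩
            unfold setH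
            by_cases hk : k = i
            · subst hk
              cases s
              · simpa using hε.le
              · simp
            · simp [hk]
          · exact ⟨(i, false), by simpa [setH] using hε⟩
      · obtain ⟨ε, _, hε⟩ := exists_sign _ _ h1 hle
        apply redB ε
        apply ih _ _ _ rfl
        · intro h0
          have := congrFun h0 (i, false)
          simp only [setH, if_true, Pi.zero_apply, Bool.false_eq_true, if_false] at this
          exact h1 this
        · rw [← hN]
          apply wt_lt
          · rintro ⟨k, s⟩
            unfold setH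
            by_cases hk : k = i
            · subst hk
              cases s
              · simp
              · simpa using hε.le
            · simp [hk]
          · exact ⟨(i, true), by simpa [setH] using hε⟩
    · push Not at hA
      have hz : ∀ i, m (i, false) = 0 ∨ m (i, true) = 0 := by
        intro i
        by_cases h : m (i, false) = 0
        · exact Or.inl h
        · exact Or.inr (hA i h)
      obtain ⟨X, hX, hXr⟩ := norm_handle (i := (0 : Fin (n + 1))) (hz 0)
      by_cases hB : ∃ j : Fin n, m (j.succ, false) ≠ 0 ∨ m (j.succ, true) ≠ 0
      · obtain ⟨j, hj⟩ := hB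
        have hne : (0 : Fin (n + 1)) ≠ j.succ := (Fin.succ_ne_zero j).symm
        obtain ⟨X', hX', hXr'⟩ := norm_handle (i := j.succ) (hz j.succ)
        have hX'0 : X' ≠ 0 := by
          intro h
          rw [h] at hX'
          simp only [Int.natAbs_zero] at hX'
          rcases hj with h1 | h1
          · have := Int.natAbs_ne_zero.mpr h1
            omega
          · have := Int.natAbs_ne_zero.mpr h1
            omega
        have hself : m = setH (setH m 0 (m (0, false)) (m (0, true))) j.succ
            (m (j.succ, false)) (m (j.succ, true)) := by
          rw [setH_self m 0, setH_self]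
        rw [hself]
        apply hXr'
        refine at0 hXr ?_
        have hwt := wt_split m j
        have main : ∀ a b : ℤ, a.natAbs + 2 * b.natAbs < X.natAbs + 2 * X'.natAbs →
            (a ≠ 0 ∨ b ≠ 0) → Good (setH (setH m 0 a 0) j.succ b 0) := by
          intro a b hab hab0
          apply ih _ _ _ rfl
          · intro h0
            rcases hab0 with h1 | h1
            · have := congrFun h0 (0, false)
              simp only [setH, hne, if_false, if_true, Pi.zero_apply, Bool.false_eq_true] at this
              exact h1 this
            · have := congrFun h0 (j.succ, false)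
              simp only [setH, if_false, if_true, Pi.zero_apply, Bool.false_eq_true] at this
              exact h1 this
          · rw [wt_S4, ← hN, hwt]
            simp only [Int.natAbs_zero]
            omega
        by_cases hX0 : X = 0
        · subst hX0
          apply s1'
          apply s2'
          rw [zero_add, sub_self]
          apply main
          · have := Int.natAbs_ne_zero.mpr hX'0
            simp only [Int.natAbs_zero]
            omega
          · exact Or.inl hX'0
        · have hXn := Int.natAbs_ne_zero.mpr hX0
          have hXn' := Int.natAbs_ne_zero.mpr hX'0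
          rcases le_total X'.natAbs X.natAbs with hle | hle
          · obtain ⟨ε, hε1, hε⟩ := exists_sign _ _ hX'0 hle
            have hgood : Good (setH (setH m 0 (X - ε * X') 0) j.succ X' 0) := by
              apply main
              · omega
              · exact Or.inr hX'0
            rcases hε1 with rfl | rfl
            · apply s1
              rwa [one_mul] at hgood
            · apply s1'
              have : X - -1 * X' = X + X' := by ring
              rwa [this] at hgood
          · obtain ⟨ε, hε1, hε⟩ := exists_sign _ _ hX0 hle
            have hgood : Good (setH (setH m 0 X 0) j.succ (X' - ε * X) 0) := by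
              apply main
              · omega
              · exact Or.inl hX0
            rcases hε1 with rfl | rfl
            · apply s2'
              rwa [one_mul] at hgood
            · apply s2
              have : X' - -1 * X = X' + X := by ring
              rwa [this] at hgood
      · push Not at hB
        rw [← setH_self m 0]
        apply hXr
        apply good_base
        · simp only [setH, if_true, Bool.false_eq_true, if_false]
          intro h
          rw [h, Int.natAbs_zero] at hX
          apply hm
          funext z
          rcases z with ⟨k, s⟩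
          refine Fin.cases ?_ (fun k' => ?_) k
          · cases s
            · have : (m (0, false)).natAbs = 0 := by omega
              simpa using this
            · have : (m (0, true)).natAbs = 0 := by omega
              simpa using this
          · cases s
            · exact (hB k').1
            · exact (hB k').2
        · rintro ⟨k, s⟩ hk
          refine Fin.cases ?_ (fun k' => ?_) k hk
          · intro hk
            cases s
            · exact absurd rfl hk
            · simp [setH]
          · intro _
            simp only [setH, Fin.succ_ne_zero, if_false]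
            cases s
            · exact (hB k').1
            · exact (hB k').2

theorem good_all (m : Fin (n + 1) × Bool → ℤ) (hm : m ≠ 0) : Good m :=
  good_all_aux _ m rfl hm

end

end SurfaceGroup

end Pool.Agent.SurfGrowth
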