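import Mathlib

/-!
Combinatorics of balls in the Cayley graph of a group with respect to a finite family `x : ι → G`
such that, for every `s : ι`, the subfamily omitting `s` is a free basis of a free subgroup.
-/

set_option autoImplicit false

namespace Pool.Agent.SurfGrowth

open Finset

section Forest

variable {G : Type*} [Group G] {κ : Type*} (y : κ → G)

/-- value in `G` of a signed letter -/
def letter (l : κ × Bool) : G := if l.2 then y l.1 else (y l.1)⁻¹

open Classical in
/-- number of `t`-edges `g → g * y t` with both ends in `A` -/
noncomputable def edgeCount (t : κ) (A : Finset G) : ℕ := (A.filter (fun g => g * y t ∈ A)).card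

open Classical in
theorem lift_mk_singleton (l : κ × Bool) :
    FreeGroup.lift y (FreeGroup.mk [l]) = letter y l := by
  rcases l with ⟨t, b⟩
  cases b <;> simp [letter]

open Classical in
theorem head_of_norm_le (u : FreeGroup κ) (l : κ × Bool)
    (h : (u * FreeGroup.mk [l]).norm ≤ u.norm) : (u⁻¹).toWord.head? = some l := by
  have h1 : (u * FreeGroup.mk [l]).norm = (FreeGroup.mk [(l.1, !l.2)] * u⁻¹).norm := by
    rw [← FreeGroup.norm_inv_eq]
    congr 1
    simp [mul_inv_rev, FreeGroup.invRev]
  have h2 : u.norm = (u⁻¹).norm := by rw [FreeGroup.norm_inv_eq]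
  rw [h1, h2] at h
  set w := u⁻¹ with hw
  unfold FreeGroup.norm at h
  rw [FreeGroup.toWord_mul, FreeGroup.toWord_mk] at h
  have h3 : FreeGroup.reduce ([(l.1, !l.2)] : List (κ × Bool)) = [(l.1, !l.2)] := by simp
  rw [h3, List.singleton_append, FreeGroup.reduce.cons, FreeGroup.reduce_toWord] at h
  cases hcase : w.toWord with
  | nil => rw [hcase] at h; simp at h
  | cons hd tl =>
    rw [hcase] at h
    simp only at h
    by_cases hc : (l.1 = hd.1 ∧ (!l.2) = !hd.2)
    · simp only [List.head?_cons, Option.some.injEq]
      obtain ⟨hc1, hc2⟩ := hc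
      have : l.2 = hd.2 := by simpa using hc2
      exact (Prod.ext hc1 this).symm
    · rw [if_neg hc] at h
      simp at h

open Classical in
theorem exists_leaf (hy : Function.Injective (FreeGroup.lift y)) (A : Finset G)
    (hA : A.Nonempty) :
    ∃ v ∈ A, ∀ l l' : κ × Bool, v * letter y l ∈ A → v * letter y l' ∈ A → l = l' := by
  obtain ⟨a0, ha0⟩ := hA
  let U : Set (FreeGroup κ) := {u | a0 * FreeGroup.lift y u ∈ A}
  have hUfin : U.Finite := by
    have : U = (fun u => a0 * FreeGroup.lift y u) ⁻¹' (A : Set G) := rfl
    rw [this]
    apply Set.Finite.preimage _ A.finite_toSet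
    intro u _ u' _ h
    exact hy (mul_left_cancel h)
  have hUne : U.Nonempty := ⟨1, by simpa [U] using ha0⟩
  obtain ⟨u, huU, humax⟩ := Set.exists_max_image U FreeGroup.norm hUfin hUne
  refine ⟨a0 * FreeGroup.lift y u, huU, ?_⟩
  have key : ∀ l : κ × Bool, a0 * FreeGroup.lift y u * letter y l ∈ A →
      (u⁻¹).toWord.head? = some l := by
    intro l hl
    apply head_of_norm_le
    apply humax
    show a0 * FreeGroup.lift y (u * FreeGroup.mk [l]) ∈ A
    rw [map_mul, lift_mk_singleton, ← mul_assoc]
    exact hl
  intro l l' hl hl'
  have h1 := key l hl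
  have h2 := key l' hl'
  rw [h1] at h2
  exact Option.some.inj h2

open Classical in
theorem edgeCount_le_erase (t : κ) (A : Finset G) (v : G) :
    edgeCount y t A ≤ edgeCount y t (A.erase v) + (if v * y t ∈ A then 1 else 0)
      + (if v * (y t)⁻¹ ∈ A then 1 else 0) := by
  unfold edgeCount
  have hsub : A.filter (fun g => g * y t ∈ A) ⊆
      ((A.erase v).filter (fun g => g * y t ∈ A.erase v)) ∪
      (if v * y t ∈ A then {v} else ∅) ∪ (if v * (y t)⁻¹ ∈ A then {v * (y t)⁻¹} else ∅) := by
    intro g hg
    rw [mem_filter] at hg
    by_cases h1 : g = v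
    · subst h1
      simp [hg.2]
    · by_cases h2 : g * y t = v
      · have : g = v * (y t)⁻¹ := by rw [← h2]; group
        subst this
        simp [hg.1]
      · simp only [mem_union, mem_filter, mem_erase]
        left; left
        exact ⟨⟨h1, hg.1⟩, h2, hg.2⟩
  refine (card_le_card hsub).trans ?_
  refine (card_union_le _ _).trans ?_
  apply Nat.add_le_add
  · refine (card_union_le _ _).trans ?_
    apply Nat.add_le_add_left
    split_ifs <;> simp
  · split_ifs <;> simp

open Classical in
/-- In a finite nonempty subset, a free family spans a forest. -/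
theorem forest [Fintype κ] (hy : Function.Injective (FreeGroup.lift y)) (A : Finset G) (hA : A.Nonempty) :
    ∑ t, edgeCount y t A + 1 ≤ A.card := by
  induction A using Finset.strongInduction with
  | H A ih =>
    obtain ⟨v, hvA, hv⟩ := exists_leaf y hy A hA
    by_cases hne : (A.erase v).Nonempty
    · have hlt : A.erase v ⊂ A := erase_ssubset hvA
      have h1 := ih _ hlt hne
      have h2 : ∑ t, edgeCount y t A ≤ ∑ t, edgeCount y t (A.erase v) + 1 := by
        have h3 : ∑ t, edgeCount y t A ≤ ∑ t, (edgeCount y t (A.erase v) +
            ((if v * y t ∈ A then 1 else 0) + (if v * (y t)⁻¹ ∈ A then 1 else 0))) := by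
          apply sum_le_sum
          intro t _
          have := edgeCount_le_erase y t A v
          omega
        rw [sum_add_distrib] at h3
        have h4 : ∑ t, ((if v * y t ∈ A then 1 else 0) + (if v * (y t)⁻¹ ∈ A then 1 else 0))
            ≤ 1 := by
          have h5 : ∑ t, ((if v * y t ∈ A then 1 else 0) + (if v * (y t)⁻¹ ∈ A then 1 else 0))
              = ((univ : Finset (κ × Bool)).filter (fun l => v * letter y l ∈ A)).card := by
            rw [card_filter, ← univ_product_univ, sum_product]
            apply sum_congr rfl
            intro t _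
            rw [Fintype.sum_bool]
            simp [letter]
          rw [h5, card_le_one]
          intro l hl l' hl'
          rw [mem_filter] at hl hl'
          exact hv l l' hl.2 hl'.2
        omega
      have h6 : (A.erase v).card + 1 = A.card := card_erase_add_one hvA
      omega
    · have hAv : A = {v} := by
        rw [not_nonempty_iff_eq_empty, erase_eq_empty_iff] at hne
        rcases hne with h | h
        · exact absurd hvA (by simp [h])
        · exact h
      have h0 : ∀ t, edgeCount y t A = 0 := by
        intro t
        unfold edgeCount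
        rw [card_eq_zero, filter_eq_empty_iff]
        intro g hg hgt
        rw [hAv, mem_singleton] at hg hgt
        subst hg
        have h7 : y t = 1 := by simpa using hgt
        have h8 : FreeGroup.lift y (FreeGroup.of t) = FreeGroup.lift y 1 := by simp [h7]
        have h9 := hy h8
        exact FreeGroup.of_ne_one t h9
      rw [sum_eq_zero (fun t _ => h0 t), hAv]
      simp

end Forest

end Pool.Agent.SurfGrowth
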