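import Mathlib
import Pool.Agent.SurfGrowth.Comb

set_option autoImplicit false

namespace Pool.Agent.SurfGrowth

open Finset

section Ball

variable {G : Type*} [Group G] {ι : Type*} [Fintype ι] (x : ι → G)

open Classical in
/-- The ball of radius `n` about `1` in the Cayley graph for the letters `x i`, `(x i)⁻¹`. -/
noncomputable def ball : ℕ → Finset G
  | 0 => {1}
  | n + 1 => ball n ∪ ((ball n) ×ˢ (univ : Finset (ι × Bool))).image (fun p => p.1 * letter x p.2)

theorem ball_zero : ball x 0 = {1} := rfl

theorem mem_ball_succ (n : ℕ) (g : G) :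
    g ∈ ball x (n + 1) ↔ g ∈ ball x n ∨ ∃ u ∈ ball x n, ∃ l : ι × Bool, g = u * letter x l := by
  classical
  show g ∈ ball x n ∪ ((ball x n) ×ˢ (univ : Finset (ι × Bool))).image
    (fun p => p.1 * letter x p.2) ↔ _
  simp only [mem_union, mem_image, mem_product, mem_univ, and_true, Prod.exists]
  constructor
  · rintro (h | ⟨u, i, b, hu, rfl⟩)
    · exact Or.inl h
    · exact Or.inr ⟨u, hu, i, b, rfl⟩
  · rintro (h | ⟨u, hu, i, b, rfl⟩)
    · exact Or.inl h
    · exact Or.inr ⟨u, i, b, hu, rfl⟩

theorem ball_subset_succ (n : ℕ) : ball x n ⊆ ball x (n + 1) := by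
  intro g hg
  rw [mem_ball_succ]
  exact Or.inl hg

theorem ball_mono {m n : ℕ} (h : m ≤ n) : ball x m ⊆ ball x n := by
  induction h with
  | refl => exact Subset.refl _
  | step _ ih => exact ih.trans (ball_subset_succ x _)

theorem one_mem_ball (n : ℕ) : (1 : G) ∈ ball x n :=
  ball_mono x (Nat.zero_le n) (by simp [ball_zero])

theorem mul_letter_mem {n : ℕ} {g : G} (hg : g ∈ ball x n) (l : ι × Bool) :
    g * letter x l ∈ ball x (n + 1) := by
  rw [mem_ball_succ]
  exact Or.inr ⟨g, hg, l, rfl⟩

theorem mul_gen_mem {n : ℕ} {g : G} (hg : g ∈ ball x n) (t : ι) :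
    g * x t ∈ ball x (n + 1) := by
  simpa [letter] using mul_letter_mem x hg (t, true)

theorem mem_of_mul_gen_mem {n : ℕ} {g : G} {t : ι} (hg : g * x t ∈ ball x n) :
    g ∈ ball x (n + 1) := by
  have := mul_letter_mem x hg (t, false)
  simpa [letter] using this

/-- parity predicate: `ε g = 2 z + n` for some integer `z` -/
def Par (ε : G →* Multiplicative ℚ) (n : ℕ) (g : G) : Prop :=
  ∃ z : ℤ, Multiplicative.toAdd (ε g) = 2 * (z : ℚ) + (n : ℚ)

variable {x} {ε : G →* Multiplicative ℚ} (hε : ∀ t, Multiplicative.toAdd (ε (x t)) = 1)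

include hε in
theorem par_letter {n : ℕ} {u : G} (hu : Par ε n u) (l : ι × Bool) :
    Par ε (n + 1) (u * letter x l) := by
  obtain ⟨z, hz⟩ := hu
  rcases l with ⟨t, b⟩
  cases b
  · refine ⟨z - 1, ?_⟩
    simp only [letter, Bool.false_eq_true, if_false, map_mul, map_inv, toAdd_mul, toAdd_inv, hz,
      hε t]
    push_cast
    ring
  · refine ⟨z, ?_⟩
    simp only [letter, if_true, map_mul, toAdd_mul, hz, hε t]
    push_cast
    ring

theorem par_disjoint {n : ℕ} {u : G} (h1 : Par ε n u) (h2 : Par ε (n + 1) u) : False := by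
  obtain ⟨z, hz⟩ := h1
  obtain ⟨z', hz'⟩ := h2
  rw [hz] at hz'
  push_cast at hz'
  have h3 : (2 * (z - z' : ℤ) : ℚ) = 1 := by push_cast; linarith
  have h4 : (2 * (z - z') : ℤ) = 1 := by exact_mod_cast h3
  omega

include hε in
theorem par_of_level (n : ℕ) (g : G) (h1 : g ∈ ball x (n + 1)) (h2 : g ∉ ball x n) :
    Par ε (n + 1) g := by
  induction n generalizing g with
  | zero =>
    rw [mem_ball_succ] at h1
    rcases h1 with h | ⟨u, hu, l, rfl⟩
    · exact absurd h h2
    · rw [ball_zero, mem_singleton] at hu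
      subst hu
      apply par_letter hε
      exact ⟨0, by simp⟩
  | succ n ih =>
    rw [mem_ball_succ] at h1
    rcases h1 with h | ⟨u, hu, l, rfl⟩
    · exact absurd h h2
    · apply par_letter hε
      apply ih u hu
      intro hu'
      exact h2 (mul_letter_mem x hu' l)

include hε in
theorem not_both_level (n : ℕ) (g : G) (t : ι) (h1 : g ∈ ball x (n + 1)) (h2 : g ∉ ball x n)
    (h3 : g * x t ∈ ball x (n + 1)) (h4 : g * x t ∉ ball x n) : False := by
  have h5 := par_of_level hε n g h1 h2
  have h6 := par_of_level hε n _ h3 h4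
  have h7 := par_letter hε h5 (t, true)
  have h8 : g * letter x (t, true) = g * x t := by simp [letter]
  rw [h8] at h7
  exact par_disjoint h6 h7

include hε in
/-- Exact recursion for the number of edges of a given type in balls. -/
theorem edgeCount_succ (n : ℕ) (t : ι) :
    edgeCount x t (ball x (n + 1)) + edgeCount x t (ball x n) = 2 * (ball x n).card := by
  classical
  have h1 : (ball x (n + 1)).filter (fun g => g * x t ∈ ball x (n + 1)) =
      ball x n ∪ (ball x n).image (fun g => g * (x t)⁻¹) := by
    ext g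
    simp only [mem_filter, mem_union, mem_image]
    constructor
    · rintro ⟨h1, h2⟩
      by_contra hcon
      push Not at hcon
      obtain ⟨h3, h4⟩ := hcon
      apply not_both_level hε n g t h1 h3 h2
      intro h5
      exact h4 _ h5 (by group)
    · rintro (h | ⟨u, hu, rfl⟩)
      · exact ⟨ball_subset_succ x n h, mul_gen_mem x h t⟩
      · refine ⟨?_, ?_⟩
        · apply mem_of_mul_gen_mem x (t := t)
          simpa using hu
        · have : u * (x t)⁻¹ * x t = u := by group
          rw [this]
          exact ball_subset_succ x n hu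
  have h2 : (ball x n) ∩ (ball x n).image (fun g => g * (x t)⁻¹) =
      (ball x n).filter (fun g => g * x t ∈ ball x n) := by
    ext g
    simp only [mem_inter, mem_image, mem_filter]
    constructor
    · rintro ⟨h1, u, hu, rfl⟩
      exact ⟨h1, by simpa using hu⟩
    · rintro ⟨h1, h2⟩
      exact ⟨h1, _, h2, by group⟩
  have h3 : ((ball x n).image (fun g => g * (x t)⁻¹)).card = (ball x n).card :=
    card_image_of_injective _ (mul_left_injective _)
  have h4 := card_union_add_card_inter (ball x n) ((ball x n).image (fun g => g * (x t)⁻¹))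
  unfold edgeCount
  rw [h1, ← h2, h4, h3]
  ring

end Ball

end Pool.Agent.SurfGrowth
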