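import Mathlib
import Pool.Agent.SurfGrowth.Ball

set_option autoImplicit false

namespace Pool.Agent.SurfGrowth

open Finset

section Key

set_option linter.unusedSectionVars false

variable {G : Type*} [Group G] {ι : Type*} [Fintype ι] (x : ι → G)

theorem exists_parent (n : ℕ) (v : G) (h1 : v ∈ ball x (n + 1)) (h2 : v ∉ ball x n) :
    ∃ p : G × (ι × Bool), p.1 ∈ ball x n ∧ v = p.1 * letter x p.2 := by
  rw [mem_ball_succ] at h1
  rcases h1 with h | ⟨u, hu, l, rfl⟩
  · exact absurd h h2
  · exact ⟨(u, l), hu, rfl⟩

theorem level_unique {m n : ℕ} {v : G} (h1 : v ∈ ball x (n + 1)) (h2 : v ∉ ball x n)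
    (h3 : v ∈ ball x (m + 1)) (h4 : v ∉ ball x m) : m = n := by
  by_contra hne
  rcases Nat.lt_or_ge m n with h | h
  · exact h2 (ball_mono x (by omega : m + 1 ≤ n) h3)
  · exact h4 (ball_mono x (by omega : n + 1 ≤ m) h1)

/-- a parent function -/
def IsPar (par : G → G × (ι × Bool)) : Prop :=
  ∀ n v, v ∈ ball x (n + 1) → v ∉ ball x n →
    (par v).1 ∈ ball x n ∧ v = (par v).1 * letter x (par v).2

theorem exists_isPar [Nonempty ι] : ∃ par : G → G × (ι × Bool), IsPar x par := by
  classical
  have h : ∀ v : G, ∃ p : G × (ι × Bool), ∀ n, v ∈ ball x (n + 1) → v ∉ ball x n →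
      p.1 ∈ ball x n ∧ v = p.1 * letter x p.2 := by
    intro v
    by_cases hv : ∃ n, v ∈ ball x (n + 1) ∧ v ∉ ball x n
    · obtain ⟨n, h1, h2⟩ := hv
      obtain ⟨p, hp⟩ := exists_parent x n v h1 h2
      refine ⟨p, ?_⟩
      intro m h3 h4
      have := level_unique x h1 h2 h3 h4
      subst this
      exact hp
    · push Not at hv
      refine ⟨(1, (Classical.arbitrary ι, true)), ?_⟩
      intro n h1 h2
      exact absurd (hv n h1) h2
  choose par hpar using h
  exact ⟨par, fun n v => hpar v n⟩

variable (par : G → G × (ι × Bool))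

open Classical in
/-- the set of letter types on the chosen geodesic from `v` down to the ball of radius `N` -/
noncomputable def typeSet (N : ℕ) : ℕ → G → Finset ι
  | 0, _ => ∅
  | i + 1, v => if v ∈ ball x (N + i) then typeSet N i v
      else insert (par v).2.1 (typeSet N i (par v).1)

theorem typeSet_of_mem {N i : ℕ} {v : G} (h : v ∈ ball x (N + i)) :
    typeSet x par N (i + 1) v = typeSet x par N i v := by
  simp [typeSet, h]

theorem typeSet_stable {N i j : ℕ} (hij : i ≤ j) {v : G} (h : v ∈ ball x (N + i)) :
    typeSet x par N j v = typeSet x par N i v := by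
  induction j, hij using Nat.le_induction with
  | base => rfl
  | succ m hm ih =>
    rw [typeSet_of_mem, ih]
    exact ball_mono x (by omega) h

theorem typeSet_of_mem_zero {N j : ℕ} {v : G} (h : v ∈ ball x N) :
    typeSet x par N j v = ∅ := by
  rw [typeSet_stable x par (Nat.zero_le j) (by simpa using h)]
  rfl

theorem card_typeSet (N i : ℕ) (v : G) : (typeSet x par N i v).card ≤ i := by
  classical
  induction i generalizing v with
  | zero => simp [typeSet]
  | succ i ih =>
    rw [typeSet]
    split_ifs with h
    · exact (ih v).trans (by omega)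
    · refine (card_insert_le _ _).trans ?_
      exact Nat.add_le_add_right (ih _) 1

theorem card_typeSet_of_mem {N i j : ℕ} (hij : i ≤ j) {v : G} (h : v ∈ ball x (N + i)) :
    (typeSet x par N j v).card ≤ i := by
  rw [typeSet_stable x par hij h]
  exact card_typeSet x par N i v

variable {par} (hpar : IsPar x par)

open Classical in
include hpar in
theorem typeSet_step {N i j : ℕ} (hij : i + 1 ≤ j) {v : G}
    (h : v ∈ ball x (N + i + 1)) (h' : v ∉ ball x (N + i)) :
    typeSet x par N j v = insert (par v).2.1 (typeSet x par N j (par v).1) := by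
  rw [typeSet_stable x par hij (v := v) (by rw [← Nat.add_assoc]; exact h)]
  rw [typeSet, if_neg h']
  rw [typeSet_stable x par (i := i) (j := j) (by omega) (v := (par v).1) (hpar _ _ h h').1]

open Classical in
/-- edges inside a finite set, as pairs (origin, type) -/
noncomputable def edges (A : Finset G) : Finset (G × ι) :=
  (A ×ˢ (univ : Finset ι)).filter (fun p => p.1 * x p.2 ∈ A)

theorem mem_edges {A : Finset G} {e : G × ι} : e ∈ edges x A ↔ e.1 ∈ A ∧ e.1 * x e.2 ∈ A := by
  classical
  simp [edges]

theorem edges_mono {A B : Finset G} (h : A ⊆ B) : edges x A ⊆ edges x B := by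
  intro e he
  rw [mem_edges] at he ⊢
  exact ⟨h he.1, h he.2⟩

theorem card_edges_filter (A : Finset G) (Q : ι → Prop) [DecidablePred Q] :
    ((edges x A).filter (fun e => Q e.2)).card =
      ∑ t ∈ univ.filter Q, edgeCount x t A := by
  classical
  have h1 : (edges x A).filter (fun e => Q e.2) =
      (univ.filter Q).biUnion (fun t => (A.filter (fun g => g * x t ∈ A)).image (fun g => (g, t))) := by
    ext ⟨g, t⟩
    simp only [mem_filter, mem_edges, mem_biUnion, mem_univ, true_and, mem_image, Prod.mk.injEq]
    constructor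
    · rintro ⟨h1, h2⟩
      exact ⟨t, h2, g, h1, rfl, rfl⟩
    · rintro ⟨t', h1, g', h2, rfl, rfl⟩
      exact ⟨h2, h1⟩
  rw [h1, card_biUnion]
  · apply sum_congr rfl
    intro t _
    rw [card_image_of_injective _ (fun a b h => (Prod.mk.inj h).1)]
    rfl
  · intro t _ t' _ hne
    rw [Function.onFun, disjoint_left]
    rintro ⟨g, u⟩ h1 h2
    simp only [mem_image, Prod.mk.injEq] at h1 h2
    obtain ⟨_, _, _, rfl⟩ := h1
    obtain ⟨_, _, _, rfl⟩ := h2
    exact hne rfl

theorem card_edges (A : Finset G) : (edges x A).card = ∑ t, edgeCount x t A := by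
  have := card_edges_filter x A (fun _ => True)
  simpa using this

/-- the parent edge of `v` -/
def parEdge (par : G → G × (ι × Bool)) (v : G) : G × ι :=
  if (par v).2.2 then ((par v).1, (par v).2.1) else (v, (par v).2.1)

theorem parEdge_snd (v : G) : (parEdge par v).2 = (par v).2.1 := by
  unfold parEdge
  split_ifs <;> rfl

include hpar in
/-- the two ends of the parent edge are `v` and its parent -/
theorem parEdge_ends {m : ℕ} {v : G} (h1 : v ∈ ball x (m + 1)) (h2 : v ∉ ball x m) :
    ((parEdge par v).1 = (par v).1 ∧ (parEdge par v).1 * x (parEdge par v).2 = v) ∨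
    ((parEdge par v).1 = v ∧ (parEdge par v).1 * x (parEdge par v).2 = (par v).1) := by
  obtain ⟨h3, h4⟩ := hpar m v h1 h2
  unfold parEdge
  unfold letter at h4
  split_ifs with hb
  · left
    rw [if_pos hb] at h4
    exact ⟨rfl, h4.symm⟩
  · right
    rw [if_neg hb] at h4
    refine ⟨rfl, ?_⟩
    show v * x (par v).2.1 = (par v).1
    nth_rewrite 1 [h4]
    group

include hpar in
theorem parEdge_inj {m m' : ℕ} {v v' : G} (h1 : v ∈ ball x (m + 1)) (h2 : v ∉ ball x m)
    (h1' : v' ∈ ball x (m' + 1)) (h2' : v' ∉ ball x m') (h : parEdge par v = parEdge par v') :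
    v = v' := by
  have e1 := parEdge_ends x hpar h1 h2
  have e2 := parEdge_ends x hpar h1' h2'
  rw [← h] at e2
  have p1 := (hpar m v h1 h2).1
  have p2 := (hpar m' v' h1' h2').1
  rcases e1 with ⟨a1, a2⟩ | ⟨a1, a2⟩ <;> rcases e2 with ⟨b1, b2⟩ | ⟨b1, b2⟩
  · exact a2.symm.trans b2
  · exfalso
    -- par v = v', v = par v'
    have c1 : (par v).1 = v' := a1.symm.trans b1
    have c2 : v = (par v').1 := a2.symm.trans b2
    rw [c1] at p1
    rw [← c2] at p2
    rcases Nat.lt_or_ge m m' with hlt | hge
    · exact h2' (ball_mono x hlt.le p1)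
    · exact h2 (ball_mono x hge p2)
  · exfalso
    have c1 : v = (par v').1 := a1.symm.trans b1
    have c2 : (par v).1 = v' := a2.symm.trans b2
    rw [c2] at p1
    rw [← c1] at p2
    rcases Nat.lt_or_ge m m' with hlt | hge
    · exact h2' (ball_mono x hlt.le p1)
    · exact h2 (ball_mono x hge p2)
  · exact a1.symm.trans b1

open Classical in
/-- edges appearing between radius `m` and radius `m+1` -/
noncomputable def newEdges (m : ℕ) : Finset (G × ι) := edges x (ball x (m + 1)) \ edges x (ball x m)

open Classical in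
/-- new edges that are not parent edges -/
noncomputable def extra (par : G → G × (ι × Bool)) (m : ℕ) : Finset (G × ι) :=
  newEdges x m \ (ball x (m + 1) \ ball x m).image (parEdge par)

include hpar in
theorem parEdge_mem_new {m : ℕ} {v : G} (h1 : v ∈ ball x (m + 1)) (h2 : v ∉ ball x m) :
    parEdge par v ∈ newEdges x m := by
  classical
  have p1 := (hpar m v h1 h2).1
  have e1 := parEdge_ends x hpar h1 h2
  have p2 := ball_subset_succ x m p1
  rw [newEdges, mem_sdiff, mem_edges, mem_edges]
  rcases e1 with ⟨a1, a2⟩ | ⟨a1, a2⟩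
  · rw [a2, a1]
    exact ⟨⟨p2, h1⟩, fun h => h2 h.2⟩
  · rw [a2, a1]
    exact ⟨⟨h1, p2⟩, fun h => h2 h.1⟩

include hpar in
theorem card_extra (m : ℕ) : (extra x par m).card + (ball x (m + 1)).card + (edges x (ball x m)).card
    = (edges x (ball x (m + 1))).card + (ball x m).card := by
  classical
  have h1 : (ball x (m + 1) \ ball x m).image (parEdge par) ⊆ newEdges x m := by
    intro e he
    rw [mem_image] at he
    obtain ⟨v, hv, rfl⟩ := he
    rw [mem_sdiff] at hv
    exact parEdge_mem_new x hpar hv.1 hv.2
  have h2 : ((ball x (m + 1) \ ball x m).image (parEdge par)).card =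
      (ball x (m + 1) \ ball x m).card := by
    apply card_image_of_injOn
    intro v hv v' hv' h
    rw [mem_coe, mem_sdiff] at hv hv'
    exact parEdge_inj x hpar hv.1 hv.2 hv'.1 hv'.2 h
  have h3 : (extra x par m).card + ((ball x (m + 1) \ ball x m).image (parEdge par)).card
      = (newEdges x m).card := card_sdiff_add_card_eq_card h1
  have h4 : (newEdges x m).card + (edges x (ball x m)).card = (edges x (ball x (m + 1))).card :=
    card_sdiff_add_card_eq_card (edges_mono x (ball_subset_succ x m))
  have h5 : (ball x (m + 1) \ ball x m).card + (ball x m).card = (ball x (m + 1)).card :=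
    card_sdiff_add_card_eq_card (ball_subset_succ x m)
  omega

open Classical in
/-- vertices of the ball of radius `N+i` whose chosen geodesic down to radius `N` avoids `s` -/
noncomputable def avoid (par : G → G × (ι × Bool)) (N J : ℕ) (s : ι) (i : ℕ) : Finset G :=
  (ball x (N + i)).filter (fun v => s ∉ typeSet x par N J v)

open Classical in
/-- extra edges at level `N+i+1` good for `s` -/
noncomputable def goodExtra (par : G → G × (ι × Bool)) (N J : ℕ) (s : ι) (i : ℕ) : Finset (G × ι) :=
  (extra x par (N + i)).filter (fun e => e.2 ≠ s ∧ s ∉ typeSet x par N J e.1 ∧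
    s ∉ typeSet x par N J (e.1 * x e.2))

open Classical in
include hpar in
theorem avoid_step {N J : ℕ} {s : ι} {i : ℕ} (hi : i + 1 ≤ J) :
    ((edges x (avoid x par N J s i)).filter (fun e => e.2 ≠ s)).card +
      ((avoid x par N J s (i + 1)).card - (avoid x par N J s i).card) +
      (goodExtra x par N J s i).card ≤
    ((edges x (avoid x par N J s (i + 1))).filter (fun e => e.2 ≠ s)).card := by
  set A := avoid x par N J s i with hA
  set B := avoid x par N J s (i + 1) with hB
  have hAB : A ⊆ B := by
    intro v hv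
    rw [hA, avoid, mem_filter] at hv
    rw [hB, avoid, mem_filter]
    exact ⟨ball_mono x (by omega) hv.1, hv.2⟩
  have hAball : A ⊆ ball x (N + i) := filter_subset _ _
  have hBball : B ⊆ ball x (N + i + 1) := filter_subset _ _
  have hdiff : ∀ v ∈ B \ A, v ∈ ball x (N + i + 1) ∧ v ∉ ball x (N + i) ∧
      s ∉ typeSet x par N J v := by
    intro v hv
    rw [mem_sdiff] at hv
    obtain ⟨h1, h2⟩ := hv
    have h3 := h1
    rw [hB, avoid, mem_filter] at h3
    refine ⟨h3.1, ?_, h3.2⟩
    intro h4
    exact h2 (by rw [hA, avoid, mem_filter]; exact ⟨h4, h3.2⟩)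
  set P1 := (edges x A).filter (fun e => e.2 ≠ s) with hP1
  set P2 := (B \ A).image (parEdge par) with hP2
  set P3 := goodExtra x par N J s i with hP3
  have hP1e : P1 ⊆ edges x (ball x (N + i)) :=
    (filter_subset _ _).trans (edges_mono x hAball)
  have hP2n : P2 ⊆ (ball x (N + i + 1) \ ball x (N + i)).image (parEdge par) := by
    apply image_subset_image
    intro v hv
    obtain ⟨h1, h2, _⟩ := hdiff v hv
    rw [mem_sdiff]
    exact ⟨h1, h2⟩
  have hP2new : P2 ⊆ newEdges x (N + i) := by
    intro e he
    have := hP2n he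
    rw [mem_image] at this
    obtain ⟨v, hv, rfl⟩ := this
    rw [mem_sdiff] at hv
    exact parEdge_mem_new x hpar hv.1 hv.2
  have hP3x : P3 ⊆ extra x par (N + i) := filter_subset _ _
  have hP3new : P3 ⊆ newEdges x (N + i) := hP3x.trans sdiff_subset
  have hnew : Disjoint (edges x (ball x (N + i))) (newEdges x (N + i)) := disjoint_sdiff
  have d12 : Disjoint P1 P2 := disjoint_of_subset_left hP1e (disjoint_of_subset_right hP2new hnew)
  have d13 : Disjoint P1 P3 := disjoint_of_subset_left hP1e (disjoint_of_subset_right hP3new hnew)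
  have d23 : Disjoint P2 P3 := by
    apply disjoint_of_subset_left hP2n
    apply disjoint_of_subset_right hP3x
    exact disjoint_sdiff
  have hP2card : P2.card = B.card - A.card := by
    rw [hP2, card_image_of_injOn, card_sdiff_of_subset hAB]
    intro v hv v' hv' h
    obtain ⟨h1, h2, _⟩ := hdiff v (by simpa using hv)
    obtain ⟨h1', h2', _⟩ := hdiff v' (by simpa using hv')
    exact parEdge_inj x hpar h1 h2 h1' h2' h
  have hsub : P1 ∪ P2 ∪ P3 ⊆ (edges x B).filter (fun e => e.2 ≠ s) := by
    apply union_subset
    · apply union_subset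
      · intro e he
        rw [hP1, mem_filter] at he
        rw [mem_filter]
        exact ⟨edges_mono x hAB he.1, he.2⟩
      · intro e he
        rw [hP2, mem_image] at he
        obtain ⟨v, hv, rfl⟩ := he
        have hvB : v ∈ B := (mem_sdiff.mp hv).1
        obtain ⟨h1, h2, h3⟩ := hdiff v hv
        have h4 := typeSet_step x hpar hi h1 h2
        rw [h4, mem_insert, not_or] at h3
        obtain ⟨h5, h6⟩ := h3
        have h7 : (par v).1 ∈ B := by
          rw [hB, avoid, mem_filter]
          exact ⟨ball_subset_succ x _ (hpar _ v h1 h2).1, h6⟩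
        rw [mem_filter, mem_edges, parEdge_snd]
        refine ⟨?_, fun h => h5 h.symm⟩
        have h8 := parEdge_ends x hpar h1 h2
        rw [parEdge_snd] at h8
        rcases h8 with ⟨a1, a2⟩ | ⟨a1, a2⟩
        · rw [a2, a1]; exact ⟨h7, hvB⟩
        · rw [a2, a1]; exact ⟨hvB, h7⟩
    · intro e he
      have he' := he
      rw [hP3, goodExtra, mem_filter] at he
      obtain ⟨h1, h2, h3, h4⟩ := he
      have h5 := (mem_sdiff.mp (hP3new he')).1
      rw [mem_edges] at h5
      rw [mem_filter, mem_edges]
      refine ⟨⟨?_, ?_⟩, h2⟩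
      · rw [hB, avoid, mem_filter]; exact ⟨h5.1, h3⟩
      · rw [hB, avoid, mem_filter]; exact ⟨h5.2, h4⟩
  have hcard := card_le_card hsub
  rw [card_union_of_disjoint (by rw [disjoint_union_left]; exact ⟨d13, d23⟩),
    card_union_of_disjoint d12, hP2card] at hcard
  exact hcard

theorem avoid_mono {N J : ℕ} {s : ι} {i j : ℕ} (hij : i ≤ j) :
    avoid x par N J s i ⊆ avoid x par N J s j := by
  classical
  intro v hv
  rw [avoid, mem_filter] at hv ⊢
  exact ⟨ball_mono x (by omega) hv.1, hv.2⟩

theorem avoid_zero {N J : ℕ} {s : ι} : avoid x par N J s 0 = ball x N := by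
  classical
  ext v
  rw [avoid, mem_filter]
  simp only [Nat.add_zero, and_iff_left_iff_imp]
  intro hv
  rw [typeSet_of_mem_zero x par hv]
  simp

open Classical in
include hpar in
theorem avoid_total {N J : ℕ} {s : ι} {i : ℕ} (hi : i ≤ J) :
    ((edges x (ball x N)).filter (fun e => e.2 ≠ s)).card +
      (avoid x par N J s i).card + ∑ j ∈ range i, (goodExtra x par N J s j).card ≤
    ((edges x (avoid x par N J s i)).filter (fun e => e.2 ≠ s)).card + (ball x N).card := by
  induction i with
  | zero => simp [avoid_zero]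
  | succ i ih =>
    have h1 := ih (by omega)
    have h2 := avoid_step x hpar (N := N) (J := J) (s := s) hi
    have h3 := card_le_card (avoid_mono x (par := par) (N := N) (J := J) (s := s)
      (Nat.le_succ i))
    rw [sum_range_succ]
    simp only [Nat.succ_eq_add_one] at h3
    omega

open Classical in
include hpar in
/-- the estimate for one letter `s` -/
theorem one_letter {N J : ℕ} {s : ι}
    (hs : Function.Injective (FreeGroup.lift (fun t : {t : ι // t ≠ s} => x t))) :
    ((edges x (ball x N)).filter (fun e => e.2 ≠ s)).card +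
      ∑ j ∈ range J, (goodExtra x par N J s j).card + 1 ≤ (ball x N).card := by
  have h1 := avoid_total x hpar (N := N) (s := s) (le_refl J)
  have hne : (avoid x par N J s J).Nonempty := by
    refine ⟨1, ?_⟩
    have : (1 : G) ∈ avoid x par N J s 0 := by rw [avoid_zero]; exact one_mem_ball x N
    exact avoid_mono x (Nat.zero_le J) this
  have h2 := forest (fun t : {t : ι // t ≠ s} => x t) hs _ hne
  have h3 : ∑ t : {t : ι // t ≠ s}, edgeCount (fun t : {t : ι // t ≠ s} => x t) t
      (avoid x par N J s J) =
      ((edges x (avoid x par N J s J)).filter (fun e => e.2 ≠ s)).card := by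
    rw [card_edges_filter x _ (fun t => t ≠ s)]
    exact (sum_subtype (p := fun t => t ≠ s) (univ.filter (fun t => t ≠ s)) (by intro t; simp)
      (fun t => edgeCount x t (avoid x par N J s J))).symm
  rw [h3] at h2
  omega

end Key

end Pool.Agent.SurfGrowth
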