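import Mathlib
import Pool.Agent.SurfGrowth.Key

set_option autoImplicit false

namespace Pool.Agent.SurfGrowth

open Finset

section Key2

set_option linter.unusedSectionVars false

variable {G : Type*} [Group G] {ι : Type*} [Fintype ι] (x : ι → G)

theorem sum_card_filter_comm {α : Type*} (S : Finset α) (R : α → ι → Prop)
    [∀ a s, Decidable (R a s)] :
    ∑ s : ι, (S.filter (fun a => R a s)).card =
      ∑ a ∈ S, ((univ : Finset ι).filter (fun s => R a s)).card := by
  simp_rw [card_filter]
  rw [sum_comm]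

variable {par : G → G × (ι × Bool)} (hpar : IsPar x par)

open Classical in
include hpar in
theorem good_count {ε : G →* Multiplicative ℚ}
    (hε : ∀ t, Multiplicative.toAdd (ε (x t)) = 1) {N J j : ℕ} (hj : j < J)
    {e : G × ι} (he : e ∈ extra x par (N + j)) :
    (Fintype.card ι : ℤ) - 2 * ((j : ℤ) + 1) ≤
      (((univ : Finset ι).filter (fun s => e.2 ≠ s ∧ s ∉ typeSet x par N J e.1 ∧
        s ∉ typeSet x par N J (e.1 * x e.2))).card : ℤ) := by
  have hnew : e ∈ newEdges x (N + j) := (mem_sdiff.mp he).1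
  rw [newEdges, mem_sdiff, mem_edges, mem_edges] at hnew
  obtain ⟨⟨h1, h2⟩, h3⟩ := hnew
  set T1 := typeSet x par N J e.1
  set T2 := typeSet x par N J (e.1 * x e.2)
  have hcards : T1.card + T2.card ≤ 2 * j + 1 := by
    by_cases ha : e.1 ∈ ball x (N + j)
    · have c1 : T1.card ≤ j := card_typeSet_of_mem x par hj.le ha
      have c2 : T2.card ≤ j + 1 := card_typeSet_of_mem x par (by omega)
        (by rw [← Nat.add_assoc]; exact h2)
      omega
    · by_cases hb : e.1 * x e.2 ∈ ball x (N + j)
      · have c1 : T2.card ≤ j := card_typeSet_of_mem x par hj.le hb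
        have c2 : T1.card ≤ j + 1 := card_typeSet_of_mem x par (by omega)
          (by rw [← Nat.add_assoc]; exact h1)
        omega
      · exact (not_both_level hε (N + j) e.1 e.2 h1 ha h2 hb).elim
  have hcompl : (univ : Finset ι).filter (fun s => e.2 ≠ s ∧ s ∉ T1 ∧ s ∉ T2) =
      ({e.2} ∪ T1 ∪ T2)ᶜ := by
    ext s
    simp only [mem_filter, mem_univ, true_and, mem_compl, mem_union, mem_singleton, not_or]
    constructor
    · rintro ⟨a, b, c⟩
      exact ⟨⟨fun h => a h.symm, b⟩, c⟩
    · rintro ⟨⟨a, b⟩, c⟩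
      exact ⟨fun h => a h.symm, b, c⟩
  rw [hcompl, card_compl]
  have hle : ({e.2} ∪ T1 ∪ T2).card ≤ 1 + T1.card + T2.card := by
    refine (card_union_le _ _).trans ?_
    apply Nat.add_le_add_right
    refine (card_union_le _ _).trans ?_
    simp
  omega

open Classical in
include hpar in
theorem key_nat (hx : ∀ s : ι, Function.Injective (FreeGroup.lift (fun t : {t : ι // t ≠ s} => x t)))
    {ε : G →* Multiplicative ℚ}
    (hε : ∀ t, Multiplicative.toAdd (ε (x t)) = 1) (N J : ℕ) :
    ((Fintype.card ι : ℤ) - 1) * ((edges x (ball x N)).card : ℤ) +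
      ∑ j ∈ range J, ((Fintype.card ι : ℤ) - 2 * ((j : ℤ) + 1)) *
        ((extra x par (N + j)).card : ℤ) + (Fintype.card ι : ℤ) ≤
      (Fintype.card ι : ℤ) * ((ball x N).card : ℤ) := by
  have h1 : ∑ s : ι, (((edges x (ball x N)).filter (fun e => e.2 ≠ s)).card +
      ∑ j ∈ range J, (goodExtra x par N J s j).card + 1) ≤ ∑ s : ι, (ball x N).card :=
    sum_le_sum (fun s _ => one_letter x hpar (hx s))
  rw [sum_add_distrib, sum_add_distrib, sum_const, sum_const, card_univ, smul_eq_mul,
    smul_eq_mul] at h1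
  have h2 : ∑ s : ι, ((edges x (ball x N)).filter (fun e => e.2 ≠ s)).card =
      (edges x (ball x N)).card * (Fintype.card ι - 1) := by
    rw [sum_card_filter_comm]
    rw [sum_const_nat (m := Fintype.card ι - 1)]
    intro e _
    rw [filter_ne, card_erase_of_mem (mem_univ _), card_univ]
  have h3 : ∑ s : ι, ∑ j ∈ range J, (goodExtra x par N J s j).card =
      ∑ j ∈ range J, ∑ e ∈ extra x par (N + j),
        ((univ : Finset ι).filter (fun s => e.2 ≠ s ∧ s ∉ typeSet x par N J e.1 ∧
        s ∉ typeSet x par N J (e.1 * x e.2))).card := by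
    rw [sum_comm]
    apply sum_congr rfl
    intro j _
    exact sum_card_filter_comm _ _
  have h4 : ∀ j ∈ range J, ((Fintype.card ι : ℤ) - 2 * ((j : ℤ) + 1)) *
        ((extra x par (N + j)).card : ℤ) ≤ ((∑ e ∈ extra x par (N + j),
        ((univ : Finset ι).filter (fun s => e.2 ≠ s ∧ s ∉ typeSet x par N J e.1 ∧
        s ∉ typeSet x par N J (e.1 * x e.2))).card : ℕ) : ℤ) := by
    intro j hj
    rw [mem_range] at hj
    push_cast
    rw [mul_comm, ← nsmul_eq_mul, ← sum_const]
    apply sum_le_sum
    intro e he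
    exact good_count x hpar hε hj he
  have h5 := sum_le_sum h4
  rw [h2, h3] at h1
  have hk : (((edges x (ball x N)).card * (Fintype.card ι - 1) : ℕ) : ℤ) ≥
      ((Fintype.card ι : ℤ) - 1) * ((edges x (ball x N)).card : ℤ) := by
    push_cast
    rw [ge_iff_le, mul_comm]
    apply mul_le_mul_of_nonneg_left _ (by positivity)
    omega
  have h6 : ((((edges x (ball x N)).card * (Fintype.card ι - 1) +
      ∑ j ∈ range J, ∑ e ∈ extra x par (N + j),
        ((univ : Finset ι).filter (fun s => e.2 ≠ s ∧ s ∉ typeSet x par N J e.1 ∧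
        s ∉ typeSet x par N J (e.1 * x e.2))).card + Fintype.card ι * 1 : ℕ)) : ℤ) ≤
        ((Fintype.card ι * (ball x N).card : ℕ) : ℤ) := by exact_mod_cast h1
  rw [Nat.cast_add, Nat.cast_add, Nat.cast_sum] at h6
  push_cast at h5 h6 hk ⊢
  linarith

/-- number of vertices -/
noncomputable def V (n : ℕ) : ℤ := ((ball x n).card : ℤ)

/-- cyclomatic number of the ball -/
noncomputable def bt (n : ℕ) : ℤ := ((edges x (ball x n)).card : ℤ) - (ball x n).card + 1

include hpar in
theorem bt_succ_sub (n : ℕ) : ((extra x par n).card : ℤ) = bt x (n + 1) - bt x n := by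
  have := card_extra x hpar n
  unfold bt
  omega

theorem V_rec {ε : G →* Multiplicative ℚ}
    (hε : ∀ t, Multiplicative.toAdd (ε (x t)) = 1) (n : ℕ) :
    V x (n + 1) = (2 * (Fintype.card ι : ℤ) - 1) * V x n + 2 - bt x n - bt x (n + 1) := by
  have h1 : (edges x (ball x (n + 1))).card + (edges x (ball x n)).card =
      Fintype.card ι * (2 * (ball x n).card) := by
    rw [card_edges, card_edges, ← sum_add_distrib, sum_congr rfl (fun t _ => edgeCount_succ hε n t)]
    simp
  have h2 : ((edges x (ball x (n + 1))).card : ℤ) + (edges x (ball x n)).card =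
      Fintype.card ι * (2 * (ball x n).card) := by exact_mod_cast h1
  unfold V bt
  linarith

theorem bt_zero (hx1 : ∀ s, x s ≠ 1) : bt x 0 = 0 := by
  unfold bt
  have : edges x (ball x 0) = ∅ := by
    ext e
    rw [mem_edges, ball_zero]
    simp only [mem_singleton, notMem_empty, iff_false, not_and]
    intro h1 h2
    rw [h1, one_mul] at h2
    exact hx1 _ h2
  rw [this]
  simp [ball_zero]

theorem V_zero : V x 0 = 1 := by
  unfold V
  simp [ball_zero]

/-- The key inequality in terms of cyclomatic numbers. -/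
theorem key [Nonempty ι]
    (hx : ∀ s : ι, Function.Injective (FreeGroup.lift (fun t : {t : ι // t ≠ s} => x t)))
    {ε : G →* Multiplicative ℚ}
    (hε : ∀ t, Multiplicative.toAdd (ε (x t)) = 1) (N J : ℕ) :
    ((Fintype.card ι : ℤ) - 1) * bt x N +
      ∑ j ∈ range J, ((Fintype.card ι : ℤ) - 2 * ((j : ℤ) + 1)) *
        (bt x (N + j + 1) - bt x (N + j)) + 1 ≤ V x N := by
  obtain ⟨par, hpar⟩ := exists_isPar x
  have h := key_nat x hpar hx hε N J
  simp_rw [bt_succ_sub x hpar] at h
  unfold V
  have h2 : ((edges x (ball x N)).card : ℤ) = bt x N + (ball x N).card - 1 := by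
    unfold bt; ring
  rw [h2] at h
  linarith

theorem bt_mono [Nonempty ι] (n : ℕ) : bt x n ≤ bt x (n + 1) := by
  obtain ⟨par, hpar⟩ := exists_isPar x
  have := bt_succ_sub x hpar n
  have h2 : (0 : ℤ) ≤ ((extra x par n).card : ℤ) := by positivity
  linarith

theorem bt_nonneg [Nonempty ι] (hx1 : ∀ s, x s ≠ 1) (n : ℕ) : 0 ≤ bt x n := by
  induction n with
  | zero => rw [bt_zero x hx1]
  | succ n ih => exact ih.trans (bt_mono x n)

end Key2

end Pool.Agent.SurfGrowth
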