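import Mathlib

set_option autoImplicit false

namespace Pool.Agent.SurfGrowth

open Finset

theorem abel_sum (c : ℝ) (b : ℕ → ℝ) (J : ℕ) :
    ∑ j ∈ range J, (c - 2 * ((j : ℝ) + 1)) * (b (j + 1) - b j) =
      (c - 2 * (J : ℝ)) * b J - c * b 0 + 2 * ∑ j ∈ range J, b j := by
  induction J with
  | zero => simp
  | succ J ih =>
    rw [sum_range_succ, ih, sum_range_succ]
    push_cast
    ring

/-- Growth bound from the two recursive inequalities. -/
theorem numeric (m : ℕ) (V b : ℕ → ℝ) (hV0 : V 0 = 1) (hb0 : ∀ n, 0 ≤ b n)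
    (hrec : ∀ n, V (n + 1) = (4 * ((m : ℝ) + 2) - 1) * V n + 2 - b n - b (n + 1))
    (hkey : ∀ N, b N + 2 * ∑ j ∈ range (m + 1), b (N + j + 1) + 1 ≤ V N)
    (x : ℝ) (hx : 1 ≤ x)
    (hroot : x + 1 ≤ (4 * ((m : ℝ) + 2) - 1 - x) * (1 + 2 * ∑ i ∈ range (m + 1), x ^ (i + 1)))
    (n : ℕ) : x ^ n ≤ V n := by
  have hx0 : 0 < x := by linarith
  set ε : ℝ := 4 * ((m : ℝ) + 2) - 1 - x with hε
  let κ : ℕ → ℝ := fun i => 1 + 2 * ∑ j ∈ range i, x ^ (j + 1)
  have hκpos : ∀ i, 0 < κ i := by
    intro i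
    have : 0 ≤ ∑ j ∈ range i, x ^ (j + 1) := sum_nonneg (fun j _ => by positivity)
    simp only [κ]
    linarith
  have hκs : ∀ i, κ (i + 1) = κ i + 2 * x ^ (i + 1) := by
    intro i
    simp only [κ, sum_range_succ]
    ring
  have hroot' : x + 1 ≤ ε * κ (m + 1) := hroot
  have hεpos : 0 < ε := by
    by_contra hcon
    push Not at hcon
    have : ε * κ (m + 1) ≤ 0 := mul_nonpos_of_nonpos_of_nonneg hcon (hκpos _).le
    linarith
  let r : ℕ → ℝ := fun i => if i = 0 then max 0 ((1 - ε) / x)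
    else max 0 ((x + 1 - ε * κ i) / x ^ (i + 1))
  have hr0 : ∀ i, 0 ≤ r i := by
    intro i
    simp only [r]
    split_ifs <;> exact le_max_left _ _
  have ha : 0 ≤ ε - 1 + x * r 0 := by
    have h1 : (1 - ε) / x ≤ r 0 := by simp [r]
    rw [div_le_iff₀ hx0] at h1
    linarith
  have hκ1 : κ 1 = 1 + 2 * x := by simp [κ]
  have hb : 0 ≤ 2 * ε - 1 - r 0 + x * r 1 := by
    have h1 : (x + 1 - ε * κ 1) / x ^ 2 ≤ r 1 := by simp [r]
    rw [div_le_iff₀ (by positivity)] at h1
    rw [hκ1] at h1
    rcases le_total (1 - ε) 0 with h2 | h2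
    · have h3 : r 0 = 0 := by
        simp only [r, if_true]
        exact max_eq_left (div_nonpos_of_nonpos_of_nonneg h2 hx0.le)
      rw [h3]
      have := mul_nonneg hx0.le (hr0 1)
      linarith
    · have h3 : r 0 = (1 - ε) / x := by
        simp only [r, if_true]
        exact max_eq_right (div_nonneg h2 hx0.le)
      have h4 : x * r 0 = 1 - ε := by rw [h3]; field_simp
      have h5 : 0 ≤ x * (2 * ε - 1 - r 0 + x * r 1) := by
        have : x * (2 * ε - 1 - r 0 + x * r 1) = 2 * ε * x - x - x * r 0 + r 1 * x ^ 2 := by ring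
        rw [this, h4]
        linarith
      exact nonneg_of_mul_nonneg_right h5 hx0
  have hc : ∀ i, 0 ≤ 2 * ε - r (i + 1) + x * r (i + 2) := by
    intro i
    have h1 : (x + 1 - ε * κ (i + 2)) / x ^ (i + 3) ≤ r (i + 2) := by simp [r]
    rw [div_le_iff₀ (by positivity)] at h1
    rcases le_total (x + 1 - ε * κ (i + 1)) 0 with h2 | h2
    · have h3 : r (i + 1) = 0 := by
        simp only [r]
        rw [if_neg (by omega)]
        exact max_eq_left (div_nonpos_of_nonpos_of_nonneg h2 (by positivity))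
      rw [h3]
      have := mul_nonneg hx0.le (hr0 (i + 2))
      linarith
    · have h3 : r (i + 1) = (x + 1 - ε * κ (i + 1)) / x ^ (i + 2) := by
        simp only [r]
        rw [if_neg (by omega)]
        exact max_eq_right (div_nonneg h2 (by positivity))
      have h4 : x ^ (i + 2) * r (i + 1) = x + 1 - ε * κ (i + 1) := by rw [h3]; field_simp
      have h5 : 0 ≤ x ^ (i + 2) * (2 * ε - r (i + 1) + x * r (i + 2)) := by
        have : x ^ (i + 2) * (2 * ε - r (i + 1) + x * r (i + 2)) =
          2 * ε * x ^ (i + 2) - x ^ (i + 2) * r (i + 1) + r (i + 2) * x ^ (i + 3) := by ring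
        rw [this, h4]
        have h6 := hκs (i + 1)
        rw [h6] at h1
        have : ε * (κ (i + 1) + 2 * x ^ (i + 1 + 1)) = ε * κ (i + 1) + 2 * ε * x ^ (i + 2) := by
          ring
        linarith
      exact nonneg_of_mul_nonneg_right h5 (by positivity)
  have hd : r (m + 1) = 0 := by
    simp only [r]
    rw [if_neg (by omega)]
    exact max_eq_left (div_nonpos_of_nonpos_of_nonneg (by linarith) (by positivity))
  -- potential
  let P : ℕ → ℝ := fun n => V n - ∑ i ∈ range (m + 1), r i * b (n + i)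
  have hPle : ∀ n, P n ≤ V n := by
    intro n
    have : 0 ≤ ∑ i ∈ range (m + 1), r i * b (n + i) :=
      sum_nonneg (fun i _ => mul_nonneg (hr0 i) (hb0 _))
    simp only [P]
    linarith
  have hbzero : ∀ i, i ≤ m + 1 → b i = 0 := by
    intro i hi
    have h1 := hkey 0
    rw [hV0] at h1
    have h2 : 0 ≤ ∑ j ∈ range (m + 1), b (0 + j + 1) := sum_nonneg (fun j _ => hb0 _)
    rcases Nat.eq_zero_or_pos i with h3 | h3
    · subst h3
      have := hb0 0
      linarith
    · have h4 : b i ≤ ∑ j ∈ range (m + 1), b (0 + j + 1) := by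
        have h5 : b i = b (0 + (i - 1) + 1) := by congr 1; omega
        rw [h5]
        exact single_le_sum (f := fun j => b (0 + j + 1)) (fun j _ => hb0 _)
          (mem_range.mpr (by omega))
      have := hb0 0
      have := hb0 i
      linarith
  have hP0 : P 0 = 1 := by
    simp only [P]
    rw [sum_eq_zero, hV0, sub_zero]
    intro i hi
    rw [mem_range] at hi
    rw [hbzero _ (by omega), mul_zero]
  have hstep : ∀ n, x * P n ≤ P (n + 1) := by
    intro n
    simp only [P]
    have e1 : ∑ i ∈ range (m + 1), r i * b (n + i) =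
        r 0 * b n + ∑ i ∈ range (m + 1), r (i + 1) * b (n + i + 1) := by
      rw [sum_range_succ' (fun i => r i * b (n + i)), sum_range_succ (fun i => r (i + 1) * b (n + i + 1)),
        hd]
      simp only [Nat.add_zero, zero_mul, add_zero]
      rw [add_comm]
      rfl
    have e2 : ∑ i ∈ range (m + 1), r i * b (n + 1 + i) =
        ∑ i ∈ range (m + 1), r i * b (n + i + 1) := by
      apply sum_congr rfl
      intro i _
      congr 2
      omega
    have e3 : 0 ≤ ∑ i ∈ range m, (2 * ε - r (i + 1) + x * r (i + 2)) * b (n + (i + 1) + 1) :=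
      sum_nonneg (fun i _ => mul_nonneg (hc i) (hb0 _))
    have e4 : ∑ i ∈ range (m + 1), (2 * ε - r i + x * r (i + 1)) * b (n + i + 1) =
        ∑ i ∈ range m, (2 * ε - r (i + 1) + x * r (i + 2)) * b (n + (i + 1) + 1) +
        (2 * ε - r 0 + x * r 1) * b (n + 1) := by
      rw [sum_range_succ']
    have e5 : ∑ i ∈ range (m + 1), (2 * ε - r i + x * r (i + 1)) * b (n + i + 1) =
        2 * ε * ∑ i ∈ range (m + 1), b (n + i + 1) - ∑ i ∈ range (m + 1), r i * b (n + i + 1)
        + x * ∑ i ∈ range (m + 1), r (i + 1) * b (n + i + 1) := by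
      rw [mul_sum, mul_sum, ← sum_sub_distrib, ← sum_add_distrib]
      apply sum_congr rfl
      intro i _
      ring
    have e6 := hkey n
    have e7 := hrec n
    have e8 : ε * (b n + 2 * ∑ j ∈ range (m + 1), b (n + j + 1) + 1) ≤ ε * V n :=
      mul_le_mul_of_nonneg_left e6 hεpos.le
    have e9 := mul_nonneg ha (hb0 n)
    have e10 := mul_nonneg hb (hb0 (n + 1))
    rw [e2, e1, e7]
    have e11 : (4 * ((m : ℝ) + 2) - 1) * V n = x * V n + ε * V n := by rw [hε]; ring
    rw [e11]
    nlinarith [e3, e4, e5, e8, e9, e10, hεpos]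
  have hPn : x ^ n ≤ P n := by
    induction n with
    | zero => simp [hP0]
    | succ n ih =>
      calc x ^ (n + 1) = x * x ^ n := by ring
        _ ≤ x * P n := mul_le_mul_of_nonneg_left ih hx0.le
        _ ≤ P (n + 1) := hstep n
  exact hPn.trans (hPle n)

end Pool.Agent.SurfGrowth
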