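import Mathlib
import Pool.Agent.SurfGrowth.Euclid
import Pool.Agent.SurfGrowth.Key2
import Pool.Agent.SurfGrowth.Numeric

set_option autoImplicit false

namespace Pool.Agent.SurfGrowth

open Finset

namespace SurfaceGroup

/-- Fewer than `2g` elements of the surface group of genus `g = n+1` which are rationally independent
in the abelianization are a free basis of a free subgroup. -/
theorem indep_free {n : ℕ} {κ : Type} [Fintype κ] (y : κ → SurfaceGroup (n + 1))
    (hlin : LinearIndependent ℚ (fun i => Multiplicative.toAdd (ab (y i))))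
    (hcard : Fintype.card κ < 2 * (n + 1)) : Function.Injective (FreeGroup.lift y) := by
  classical
  set v : κ → ((Fin (n + 1) × Bool) →₀ ℚ) := fun i => Multiplicative.toAdd (ab (y i)) with hv
  have hlt : Submodule.span ℚ (Set.range v) < ⊤ := by
    rw [lt_top_iff_ne_top]
    intro htop
    have h1 : Module.finrank ℚ (Submodule.span ℚ (Set.range v)) = Fintype.card κ :=
      finrank_span_eq_card hlin
    rw [htop, finrank_top] at h1
    have h2 : Module.finrank ℚ ((Fin (n + 1) × Bool) →₀ ℚ) = 2 * (n + 1) := by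
      rw [Module.finrank_finsupp_self]
      simp [mul_comm]
    omega
  obtain ⟨f, hf0, hf⟩ := Submodule.exists_le_ker_of_lt_top _ hlt
  obtain ⟨b, hb⟩ := IsLocalization.exist_integer_multiples_of_finite (nonZeroDivisors ℤ)
    (fun y : Fin (n + 1) × Bool => f (Finsupp.single y 1))
  choose m hm using hb
  have hb0 : ((b : ℤ) : ℚ) ≠ 0 := by
    have := nonZeroDivisors.coe_ne_zero b
    exact_mod_cast this
  have hm' : ∀ y, (m y : ℚ) = ((b : ℤ) : ℚ) * f (Finsupp.single y 1) := by
    intro y
    have := hm y
    simpa [zsmul_eq_mul] using this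
  have hsum : ∀ w : (Fin (n + 1) × Bool) →₀ ℚ, ∑ y, (m y : ℚ) * w y = ((b : ℤ) : ℚ) * f w := by
    intro w
    induction w using Finsupp.induction_linear with
    | zero => simp
    | add f g hf hg =>
      simp only [map_add, Finsupp.add_apply, mul_add, Finset.sum_add_distrib, hf, hg]
    | single y c =>
      have h1 : Finsupp.single y c = c • Finsupp.single y (1 : ℚ) := by simp
      rw [sum_mul_single, h1, map_smul, hm']
      simp only [smul_eq_mul]
      ring
  apply good_all m
  · intro h0
    apply hf0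
    apply Finsupp.lhom_ext'
    intro y
    apply LinearMap.ext_ring
    show f (Finsupp.single y 1) = 0
    have := hm' y
    rw [h0] at this
    simp only [Pi.zero_apply, Int.cast_zero] at this
    rcases mul_eq_zero.mp this.symm with h | h
    · exact absurd h hb0
    · exact h
  · exact hlin
  · intro i
    rw [hsum]
    have : v i ∈ LinearMap.ker f := hf (Submodule.subset_span ⟨i, rfl⟩)
    rw [LinearMap.mem_ker] at this
    rw [show Multiplicative.toAdd (ab (y i)) = v i from rfl, this, mul_zero]

/-- Rationally independent elements all take value one for a suitable character. -/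
theorem exists_char {g : ℕ} {κ : Type} [Fintype κ] (y : κ → SurfaceGroup g)
    (hlin : LinearIndependent ℚ (fun i => Multiplicative.toAdd (ab (y i)))) :
    ∃ ε : SurfaceGroup g →* Multiplicative ℚ, ∀ i, Multiplicative.toAdd (ε (y i)) = 1 := by
  classical
  set v : κ → ((Fin g × Bool) →₀ ℚ) := fun i => Multiplicative.toAdd (ab (y i)) with hv
  have hker : LinearMap.ker (Finsupp.linearCombination ℚ v) = ⊥ :=
    LinearMap.ker_eq_bot.mpr hlin
  obtain ⟨r, hr⟩ := LinearMap.exists_leftInverse_of_injective _ hker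
  let φ : ((Fin g × Bool) →₀ ℚ) →ₗ[ℚ] ℚ :=
    (Finsupp.linearCombination ℚ (fun _ : κ => (1 : ℚ))).comp r
  refine ⟨(AddMonoidHom.toMultiplicative φ.toAddMonoidHom).comp ab, ?_⟩
  intro i
  show φ (Multiplicative.toAdd (ab (y i))) = 1
  have h1 : Multiplicative.toAdd (ab (y i)) = Finsupp.linearCombination ℚ v (Finsupp.single i 1) := by
    simp [hv]
  have h2 : r (Finsupp.linearCombination ℚ v (Finsupp.single i 1)) = Finsupp.single i 1 :=
    LinearMap.congr_fun hr _
  show (Finsupp.linearCombination ℚ (fun _ : κ => (1 : ℚ))) (r (Multiplicative.toAdd (ab (y i)))) = 1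
  rw [h1, h2]
  simp

/-- The main estimate for balls. -/
theorem ball_growth (m : ℕ) {ι : Type} [Fintype ι] (hι : Fintype.card ι = 2 * (m + 2))
    (x : ι → SurfaceGroup (m + 2))
    (hlin : LinearIndependent ℚ (fun i => Multiplicative.toAdd (ab (x i))))
    (z : ℝ) (hz : 1 ≤ z)
    (hroot : z + 1 ≤ (4 * ((m : ℝ) + 2) - 1 - z) * (1 + 2 * ∑ i ∈ range (m + 1), z ^ (i + 1)))
    (n : ℕ) : z ^ n ≤ (ball x n).card := by
  classical
  obtain ⟨ε, hε⟩ := exists_char x hlin
  have hne : Nonempty ι := by
    rw [← Fintype.card_pos_iff, hι]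
    omega
  have hx : ∀ s : ι, Function.Injective (FreeGroup.lift (fun t : {t : ι // t ≠ s} => x t)) := by
    intro s
    apply indep_free
    · exact hlin.comp (fun t : {t : ι // t ≠ s} => (t : ι)) Subtype.val_injective
    · rw [Fintype.card_subtype_compl, hι]
      simp only [Fintype.card_subtype_eq]
      omega
  have hx1 : ∀ s, x s ≠ 1 := by
    intro s h
    have := hε s
    rw [h] at this
    simp at this
  have := numeric m (fun n => ((V x n : ℤ) : ℝ)) (fun n => ((bt x n : ℤ) : ℝ))
    (by simp [V_zero]) (fun n => by exact_mod_cast bt_nonneg x hx1 n)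
    (by
      intro n
      have := V_rec x hε n
      rw [hι] at this
      have h2 : ((V x (n + 1) : ℤ) : ℝ) = (((2 * ((2 * (m + 2) : ℕ) : ℤ) - 1) * V x n + 2 - bt x n -
        bt x (n + 1) : ℤ) : ℝ) := by rw [this]
      rw [h2]
      push_cast
      ring)
    (by
      intro N
      have hk := key x hx hε N (m + 1)
      rw [hι] at hk
      have hk2 : (((((2 * (m + 2) : ℕ) : ℤ) - 1) * bt x N +
        ∑ j ∈ range (m + 1), (((2 * (m + 2) : ℕ) : ℤ) - 2 * ((j : ℤ) + 1)) *
        (bt x (N + j + 1) - bt x (N + j)) + 1 : ℤ) : ℝ) ≤ ((V x N : ℤ) : ℝ) := by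
        exact_mod_cast hk
      have ha := abel_sum (2 * ((m : ℝ) + 2)) (fun j => ((bt x (N + j) : ℤ) : ℝ)) (m + 1)
      push_cast at hk2
      simp only [← add_assoc] at ha
      have hs : ∑ j ∈ range (m + 1), ((bt x (N + j) : ℤ) : ℝ) + ((bt x (N + (m + 1)) : ℤ) : ℝ) =
          ∑ j ∈ range (m + 1), ((bt x (N + j + 1) : ℤ) : ℝ) + ((bt x (N + 0) : ℤ) : ℝ) := by
        rw [← sum_range_succ (fun j => ((bt x (N + j) : ℤ) : ℝ)),
          sum_range_succ' (fun j => ((bt x (N + j) : ℤ) : ℝ))]
        simp only [add_assoc]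
      simp only [add_zero] at hs ha
      rw [ha] at hk2
      push_cast at hk2
      rw [← add_assoc] at hs
      linarith [hk2, hs])
    z hz hroot n
  simpa [V] using this

end SurfaceGroup

end Pool.Agent.SurfGrowth
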