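import Mathlib
import Pool.Agent.SurfGrowth.Indep

set_option autoImplicit false

namespace Pool.Agent.SurfGrowth

open Finset

section General

variable {G : Type*} [Group G]

theorem wordBall_finite (S : Finset G) (n : ℕ) : (wordBall S n).Finite := by
  classical
  let T : Finset G := S ∪ S.image (fun s => s⁻¹)
  have h1 : ({l : List T | l.length ≤ n}).Finite := List.finite_length_le T n
  refine (h1.image (fun l => (l.map Subtype.val).prod)).subset ?_
  rintro w ⟨l, hl, hS, rfl⟩
  have hT : ∀ s ∈ l, s ∈ T := by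
    intro s hs
    rcases hS s hs with h | h
    · exact mem_union_left _ h
    · exact mem_union_right _ (mem_image.mpr ⟨_, h, inv_inv s⟩)
  refine ⟨l.attach.map (fun s => ⟨s.1, hT s.1 s.2⟩), by simpa using hl, ?_⟩
  simp [List.map_map, Function.comp_def]

theorem ball_subset_wordBall {ι : Type*} [Fintype ι] (x : ι → G) (S : Finset G)
    (hx : ∀ i, x i ∈ S) (n : ℕ) : (ball x n : Set G) ⊆ wordBall S n := by
  induction n with
  | zero =>
    intro w hw
    rw [ball_zero, mem_coe, mem_singleton] at hw
    exact ⟨[], by simp, by simp, by simp [hw]⟩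
  | succ n ih =>
    intro w hw
    rw [mem_coe, mem_ball_succ] at hw
    rcases hw with h | ⟨u, hu, l, rfl⟩
    · obtain ⟨l, h1, h2, h3⟩ := ih h
      exact ⟨l, by omega, h2, h3⟩
    · obtain ⟨L, h1, h2, h3⟩ := ih hu
      refine ⟨L ++ [letter x l], ?_, ?_, ?_⟩
      · simp only [List.length_append, List.length_cons, List.length_nil]
        omega
      · intro s hs
        rw [List.mem_append] at hs
        rcases hs with hs | hs
        · exact h2 s hs
        · rw [List.mem_singleton] at hs
          subst hs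
          unfold letter
          split_ifs
          · exact Or.inl (hx _)
          · right
            rw [inv_inv]
            exact hx _
      · rw [List.prod_append, h3]
        simp

theorem le_growthRate {ι : Type*} [Fintype ι] (x : ι → G) (S : Finset G)
    (hx : ∀ i, x i ∈ S) (z : ℝ) (hz : 0 ≤ z) (h : ∀ n, z ^ n ≤ (ball x n).card) :
    ENNReal.ofReal z ≤ growthRate S := by
  unfold growthRate
  refine Filter.le_limsup_of_frequently_le (Filter.Eventually.frequently ?_)
  filter_upwards [Filter.eventually_gt_atTop 0] with n hn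
  have h1 : z ^ n ≤ (beta S n : ℝ) := by
    refine (h n).trans ?_
    have : (ball x n).card ≤ beta S n := by
      unfold beta
      rw [← Set.ncard_coe_finset]
      exact Set.ncard_le_ncard (ball_subset_wordBall x S hx n) (wordBall_finite S n)
    exact_mod_cast this
  have h2 : (ENNReal.ofReal z) ^ n ≤ (beta S n : ENNReal) := by
    rw [← ENNReal.ofReal_pow hz, ← ENNReal.ofReal_natCast]
    exact ENNReal.ofReal_le_ofReal h1
  have hn' : (n : ℝ) ≠ 0 := by exact_mod_cast hn.ne'
  calc ENNReal.ofReal z = ((ENNReal.ofReal z) ^ n) ^ (1 / (n : ℝ)) := by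
        rw [← ENNReal.rpow_natCast, ← ENNReal.rpow_mul]
        field_simp
        simp
    _ ≤ _ := ENNReal.rpow_le_rpow h2 (by positivity)

end General

namespace SurfaceGroup

theorem exists_indep {g : ℕ} (S : Finset (SurfaceGroup g))
    (hS : Subgroup.closure (S : Set (SurfaceGroup g)) = ⊤) :
    ∃ (ι : Type) (_ : Fintype ι) (x : ι → SurfaceGroup g), Fintype.card ι = 2 * g ∧
      (∀ i, x i ∈ S) ∧ LinearIndependent ℚ (fun i => Multiplicative.toAdd (ab (x i))) := by
  classical
  let W : Set ((Fin g × Bool) →₀ ℚ) := (fun s => Multiplicative.toAdd (ab s)) '' (S : Set _)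
  have hWfin : W.Finite := S.finite_toSet.image _
  have hspan : Submodule.span ℚ W = ⊤ := by
    let H : Subgroup (SurfaceGroup g) :=
      { carrier := {w | Multiplicative.toAdd (ab w) ∈ Submodule.span ℚ W}
        one_mem' := by simp
        mul_mem' := by
          intro a b ha hb
          simp only [Set.mem_ofPred_eq, map_mul, toAdd_mul] at *
          exact Submodule.add_mem _ ha hb
        inv_mem' := by
          intro a ha
          simp only [Set.mem_ofPred_eq, map_inv, toAdd_inv] at *
          exact Submodule.neg_mem _ ha }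
    have hH : H = ⊤ := by
      rw [eq_top_iff, ← hS, Subgroup.closure_le]
      intro s hs
      exact Submodule.subset_span ⟨s, hs, rfl⟩
    rw [eq_top_iff, ← (Finsupp.basisSingleOne : Module.Basis _ ℚ ((Fin g × Bool) →₀ ℚ)).span_eq,
      Submodule.span_le]
    rintro _ ⟨y, rfl⟩
    rw [Finsupp.coe_basisSingleOne]
    have h1 : (gen y : SurfaceGroup g) ∈ H := by rw [hH]; trivial
    have h2 : Multiplicative.toAdd (ab (gen y)) ∈ Submodule.span ℚ W := h1
    rw [ab_gen] at h2
    exact h2
  obtain ⟨b, hbW, hbspan, hblin⟩ := exists_linearIndependent ℚ W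
  have hbfin : b.Finite := hWfin.subset hbW
  have : Fintype b := hbfin.fintype
  have hcard : Fintype.card b = 2 * g := by
    have h1 : Module.finrank ℚ (Submodule.span ℚ (Set.range (Subtype.val : b → _))) =
        Fintype.card b := finrank_span_eq_card hblin
    rw [Subtype.range_coe, hbspan, hspan, finrank_top, Module.finrank_finsupp_self] at h1
    rw [← h1]
    simp [mul_comm]
  have hch : ∀ i : b, ∃ s ∈ S, Multiplicative.toAdd (ab s) = (i : (Fin g × Bool) →₀ ℚ) := by
    intro i
    obtain ⟨s, hs, h⟩ := hbW i.2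
    exact ⟨s, hs, h⟩
  choose x hxS hx using hch
  refine ⟨b, inferInstance, x, hcard, hxS, ?_⟩
  simp_rw [hx]
  exact hblin

/-- The lower bound. -/
theorem growth_bound (g : ℕ) (hg : 2 ≤ g) (x : ℝ) (hx : 1 ≤ x)
    (hroot : x + 1 ≤ (4 * (g : ℝ) - 1 - x) * (1 + 2 * ∑ i ∈ Icc 1 (g - 1), x ^ i)) :
    ENNReal.ofReal x ≤ minGrowth (SurfaceGroup g) := by
  obtain ⟨m, rfl⟩ : ∃ m, g = m + 2 := ⟨g - 2, by omega⟩
  have hs : ∑ i ∈ Icc 1 (m + 2 - 1), x ^ i = ∑ i ∈ range (m + 1), x ^ (i + 1) := by
    rw [show m + 2 - 1 = m + 1 by omega, ← Finset.Ico_succ_right_eq_Icc]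
    simp only [Order.succ_eq_add_one]
    rw [Finset.sum_Ico_eq_sum_range]
    apply sum_congr
    · congr 1
    · intro i _
      rw [add_comm]
  rw [hs] at hroot
  unfold minGrowth
  refine le_iInf₂ ?_
  intro S hS
  obtain ⟨ι, hι, y, hcard, hyS, hlin⟩ := exists_indep S hS
  apply le_growthRate y S hyS x (by linarith)
  intro n
  apply ball_growth m hcard y hlin x hx _ n
  push_cast at hroot ⊢
  exact hroot

end SurfaceGroup

end Pool.Agent.SurfGrowth
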